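import Pool.Agent.Helper19.AAT.Resid
import Pool.Agent.Helper19.Sign.ArithCore

/-!
# AAT: nice and fine tuples have no relations
-/

open Polynomial

namespace Pool.Agent.Helper19.AAT

open Pool.Agent.Helper84.AA (IsTrace traceSet frob)
open Helper19.Sign (qw weil weil_monic theoremB' irreducible_qw)
open Helper19.Disc (roots mem_roots')

/-- All the polynomials `T ^ g h(T + q / T)` are irreducible and there are no multiplicative
relations between all their roots, except the trivial ones. -/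
def GoodT (q : ℕ) {k : ℕ} (h : Fin k → ℤ[X]) : Prop :=
  (∀ i, Irreducible (frob q (h i))) ∧ ∀ (n : Fin k → ℂ → ℤ) (N : ℕ) (r : ℚ), N ≠ 0 →
    (∏ i, ∏ z ∈ ((frob q (h i)).map (Int.castRingHom ℂ)).roots.toFinset, z ^ n i z) ^ N = (r : ℂ) →
    ∀ i, ∀ z ∈ ((frob q (h i)).map (Int.castRingHom ℂ)).roots.toFinset, n i z = n i (q / z)

theorem goodT_of {q k : ℕ} (hq : 1 ≤ q) (h : Fin k → ℤ[X]) (hm : ∀ i, (h i).Monic)
    (hd : ∀ i, 2 ≤ (h i).natDegree) (hirr : ∀ i, Irreducible (h i))
    (hl : ∀ i, ∃ l, NiceAt q (h i) l ∧ ∀ j, j ≠ i → FineAt q (h j) l) : GoodT q h := by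
  classical
  have hirrQ : ∀ i, Irreducible ((h i).map (Int.castRingHom ℚ)) := fun i =>
    ((hm i).irreducible_iff_irreducible_map_fraction_map (K := ℚ)).1 (hirr i)
  have hq0 : (q : ℤ) ≠ 0 := by omega
  have h1 : ∀ i, Irreducible (qw (q : ℤ) (h i)) := by
    intro i
    obtain ⟨l, ⟨hlp, _, hval⟩, _⟩ := hl i
    exact irreducible_qw hq0 (hm i) (hirrQ i) hlp (by rw [hval]; exact odd_one)
  have hfm : ∀ i, (frob q (h i)).Monic := fun i => (weil_monic (q : ℤ) (h i) (hm i)).1
  refine ⟨fun i => ((hfm i).irreducible_iff_irreducible_map_fraction_map (K := ℚ)).2 (h1 i), ?_⟩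
  intro n N r hN hrel
  -- the splitting field
  set P : ℚ[X] := ∏ i, qw (q : ℤ) (h i) with hP
  have hP0 : P ≠ 0 := Finset.prod_ne_zero_iff.2 fun i _ => (h1 i).ne_zero
  have hsC : (P.map (algebraMap ℚ ℂ)).Splits := IsAlgClosed.splits _
  let L : IntermediateField ℚ ℂ := IntermediateField.adjoin ℚ (P.rootSet ℂ)
  have hL : P.IsSplittingField ℚ L := IntermediateField.adjoin_rootSet_isSplittingField hsC
  have : FiniteDimensional ℚ L := IsSplittingField.finiteDimensional L P
  have : NumberField L := { }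
  have hnorm : Normal ℚ L := Normal.of_isSplittingField P
  have : IsGalois ℚ L := { }
  have hsP : (P.map (algebraMap ℚ L)).Splits := IsSplittingField.splits L P
  have hsL : ∀ i, ((qw (q : ℤ) (h i)).map (algebraMap ℚ L)).Splits := by
    intro i
    refine Splits.of_dvd hsP ?_ (Polynomial.map_dvd _ (Finset.dvd_prod_of_mem _ (Finset.mem_univ i)))
    exact (Polynomial.map_ne_zero_iff (algebraMap ℚ L).injective).2 hP0
  have hmapC : ∀ i, (frob q (h i)).map (Int.castRingHom ℂ) =
      ((qw (q : ℤ) (h i)).map (algebraMap ℚ L)).map (algebraMap L ℂ) := by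
    intro i
    rw [Polynomial.map_map, qw, Polynomial.map_map]
    congr 1
  have hroots : ∀ i, ((frob q (h i)).map (Int.castRingHom ℂ)).roots.toFinset =
      (roots (qw (q : ℤ) (h i)) L).image (algebraMap L ℂ) := by
    intro i
    rw [hmapC, (hsL i).roots_map]
    ext z
    rw [Multiset.mem_toFinset, Multiset.mem_map, Finset.mem_image]
    constructor
    · rintro ⟨b, hb, rfl⟩
      refine ⟨b, ?_, rfl⟩
      rw [mem_roots' (h1 i).ne_zero]
      rw [mem_roots (Polynomial.map_ne_zero (h1 i).ne_zero), IsRoot.def, eval_map_algebraMap] at hb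
      exact hb
    · rintro ⟨b, hb, rfl⟩
      refine ⟨b, ?_, rfl⟩
      rw [mem_roots' (h1 i).ne_zero] at hb
      rw [mem_roots (Polynomial.map_ne_zero (h1 i).ne_zero), IsRoot.def, eval_map_algebraMap]
      exact hb
  have hinj : Function.Injective (algebraMap L ℂ) := (algebraMap L ℂ).injective
  have hprod : ∀ i, ∏ z ∈ (roots (qw (q : ℤ) (h i)) L).image (algebraMap L ℂ), z ^ n i z =
      algebraMap L ℂ (∏ b ∈ roots (qw (q : ℤ) (h i)) L, b ^ n i (algebraMap L ℂ b)) := by
    intro i
    rw [Finset.prod_image fun a _ b _ hab => hinj hab, map_prod]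
    exact Finset.prod_congr rfl fun b _ => (map_zpow₀ (algebraMap L ℂ) b _).symm
  simp only [hroots, hprod] at hrel
  rw [← map_prod, ← map_pow] at hrel
  have h3 : (∏ i, ∏ b ∈ roots (qw (q : ℤ) (h i)) L, b ^ n i (algebraMap L ℂ b)) ^ N =
      algebraMap ℚ L r := by
    apply hinj
    rw [hrel, ← IsScalarTower.algebraMap_apply ℚ L ℂ]
    rfl
  have h4 := theoremB' (Fin k) (fun _ => (q : ℤ)) (fun _ => hq0) h hm hirrQ
    (by
      intro i
      obtain ⟨l, ⟨hlp, hsep, hval⟩, hf⟩ := hl i
      refine ⟨l, hlp, ?_, by rw [hval]; exact odd_one, fun j hj => (hf j hj).2⟩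
      intro j
      by_cases hj : j = i
      · rw [hj]; exact hsep
      · exact (hf j hj).1)
    L hsL (fun i hdi => by have := hd i; omega)
    (fun i b => n i (algebraMap L ℂ b)) N hN r h3
  intro i z hz
  rw [hroots] at hz
  obtain ⟨b, hb, rfl⟩ := Finset.mem_image.1 hz
  have h5 := h4 i b hb
  rw [h5, map_div₀, map_intCast]
  norm_cast

end Pool.Agent.Helper19.AAT
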