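import Pool.Agent.Helper19.AAT.Count
import Pool.Agent.Helper19.AAT.Good

/-!
# AAT: almost all tuples of isogeny classes
-/

open Polynomial

namespace Pool.Agent.Helper19.AAT

open Pool.Agent.Helper84.AA

/-- The bounds for one `g`. -/
theorem one_dim {q p : ℕ} (hq : 16 ≤ q) (hp : p.Prime) :
    ∃ c : ℝ, 0 < c ∧ ∃ G : ℕ, 3 ≤ G ∧ ∀ g ≥ G,
      (({h ∈ traceSet q g | ¬ (Irreducible h ∧ NiceB q g h)}.ncard : ℕ) : ℝ) ≤
        c / Real.log g * (traceSet q g).ncard ∧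
      ((traceSet q g).ncard : ℝ) ≤
        8 * (({h ∈ traceSet q g | ¬ (p : ℤ) ∣ h.coeff 0}.ncard : ℕ) : ℝ) ∧
      ((g : ℝ) + 1) * (preSet q g (g - 1)).ncard ≤ c / Real.log g * (traceSet q g).ncard ∧
      1 ≤ c / Real.log g * g := by
  obtain ⟨G1, hG1⟩ := ratio1 hq
  obtain ⟨G2, hG2⟩ := ratio2 hq
  obtain ⟨G3, hG3⟩ := ratio3 hq
  obtain ⟨c, hc, G4, hG4⟩ := sieve_logB (q := q) (by omega)
  have hlim := tendsto_self_mul_const_pow_of_lt_one (show (0 : ℝ) ≤ 98 / 100 by norm_num)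
    (show (98 / 100 : ℝ) < 1 by norm_num)
  obtain ⟨G5, hG5⟩ := Filter.eventually_atTop.1 (hlim.eventually (gt_mem_nhds
    (show (0 : ℝ) < 1 by norm_num)))
  have hlim2 : Filter.Tendsto (fun n : ℕ => (n : ℝ) ^ 2 * (98 / 101 : ℝ) ^ n) Filter.atTop
      (nhds 0) :=
    tendsto_pow_const_mul_const_pow_of_abs_lt_one 2 (by rw [abs_of_pos] <;> norm_num)
  obtain ⟨G6, hG6⟩ := Filter.eventually_atTop.1 (hlim2.eventually (gt_mem_nhds
    (show (0 : ℝ) < 1 / 2 by norm_num)))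
  refine ⟨3 + c, by positivity, max (max (max G1 G2) (max G3 G4)) (max (max G5 3) G6), by simp,
    fun g hg => ?_⟩
  have g1 : G1 ≤ g := le_trans (by simp) hg
  have g2 : G2 ≤ g := le_trans (by simp) hg
  have g3 : G3 ≤ g := le_trans (by simp) hg
  have g4 : G4 ≤ g := le_trans (by simp) hg
  have g5 : G5 ≤ g := le_trans (by simp) hg
  have g6 : G6 ≤ g := le_trans (by simp) hg
  have hg3 : 3 ≤ g := le_trans (by simp) hg
  have hgR : (3 : ℝ) ≤ g := by exact_mod_cast hg3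
  have hlog : 0 < Real.log g := Real.log_pos (by linarith)
  have hlogg : Real.log g ≤ g :=
    (Real.log_le_sub_one_of_pos (by linarith)).trans (by linarith)
  have hθ0 : (0 : ℝ) < (98 / 100 : ℝ) ^ g := by positivity
  have hθ2 : (98 / 100 : ℝ) ^ g ≤ 1 / 2 := by nlinarith [hG5 g g5]
  have hθ1 : (98 / 100 : ℝ) ^ g ≤ 1 / Real.log g := by
    rw [le_div_iff₀ hlog]
    nlinarith [hG5 g g5]
  obtain ⟨h1, h2⟩ := almost_coreB hq hp (by omega) (by positivity) (hG1 g g1) (hG2 g g2)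
    (hG3 g g3) (hG4 g g4) hθ2
  have hN0 : (0 : ℝ) ≤ (traceSet q g).ncard := Nat.cast_nonneg _
  have hsplit : (3 + c) / Real.log g = 3 * (1 / Real.log g) + c / Real.log g := by ring
  have hcl : 0 < c / Real.log g := by positivity
  have h1l : 0 < 1 / Real.log g := by positivity
  refine ⟨?_, h2, ?_, ?_⟩
  · refine h1.trans (mul_le_mul_of_nonneg_right ?_ hN0)
    rw [hsplit]
    linarith
  · have h3 := hG1 g g1
    have h4 := hG6 g g6
    have h5 : (0 : ℝ) < (101 / 100 : ℝ) ^ g := by positivity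
    have h6 : ((preSet q g (g - 1)).ncard : ℝ) ≤ (98 / 101 : ℝ) ^ g * (traceSet q g).ncard := by
      have h7 : (98 / 101 : ℝ) ^ g = (98 / 100 : ℝ) ^ g / (101 / 100 : ℝ) ^ g := by
        rw [← div_pow]; norm_num
      rw [h7, div_mul_eq_mul_div, le_div_iff₀ h5, mul_comm]
      exact h3
    have h8 : ((g : ℝ) + 1) * (98 / 101 : ℝ) ^ g ≤ 1 / Real.log g := by
      rw [le_div_iff₀ hlog]
      have h10 : (0 : ℝ) < (98 / 101 : ℝ) ^ g := by positivity
      have h11 : ((g : ℝ) + 1) * Real.log g ≤ 2 * (g : ℝ) ^ 2 := by nlinarith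
      calc ((g : ℝ) + 1) * (98 / 101 : ℝ) ^ g * Real.log g
          = (((g : ℝ) + 1) * Real.log g) * (98 / 101 : ℝ) ^ g := by ring
        _ ≤ (2 * (g : ℝ) ^ 2) * (98 / 101 : ℝ) ^ g := mul_le_mul_of_nonneg_right h11 h10.le
        _ ≤ 1 := by linarith
    calc ((g : ℝ) + 1) * (preSet q g (g - 1)).ncard
        ≤ ((g : ℝ) + 1) * ((98 / 101 : ℝ) ^ g * (traceSet q g).ncard) :=
          mul_le_mul_of_nonneg_left h6 (by positivity)
      _ = (((g : ℝ) + 1) * (98 / 101 : ℝ) ^ g) * (traceSet q g).ncard := by ring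
      _ ≤ (3 + c) / Real.log g * (traceSet q g).ncard := by
          refine mul_le_mul_of_nonneg_right ?_ hN0
          rw [hsplit]
          linarith
  · rw [div_mul_eq_mul_div, le_div_iff₀ hlog]
    nlinarith

theorem almost_tuples {q p k : ℕ} (hq : 16 ≤ q) (hp : p.Prime) :
    ∃ c : ℝ, 0 < c ∧ ∃ G : ℕ, ∀ m ≥ G, ∀ g : Fin k → ℕ, (∀ i, m ≤ g i ∧ g i ≤ m ^ 4) →
      (({h : Fin k → ℤ[X] | (∀ i, h i ∈ traceSet q (g i)) ∧ ¬ GoodT q h}.ncard : ℕ) : ℝ) ≤
        c / Real.log m * (({h : Fin k → ℤ[X] | ∀ i, h i ∈ traceSet q (g i) ∧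
          ¬ (p : ℤ) ∣ (h i).coeff 0}.ncard : ℕ) : ℝ) := by
  classical
  obtain ⟨c, hc, G, hG3, hG'⟩ := one_dim hq hp
  refine ⟨c * (8 ^ k * ((k : ℝ) + k * k + 1) * 3), by positivity, G, fun m hm g hgm => ?_⟩
  have hm3 : 3 ≤ m := hG3.trans hm
  have hmR : (3 : ℝ) ≤ m := by exact_mod_cast hm3
  have hlogm : 0 < Real.log m := Real.log_pos (by linarith)
  set δ : ℝ := c / Real.log m with hδd
  have hδ : 0 < δ := by positivity
  have hg : ∀ i, G ≤ g i := fun i => le_trans hm (hgm i).1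
  have hgg : ∀ i j, g j ≤ g i ^ 4 := fun i j =>
    le_trans (hgm j).2 (Nat.pow_le_pow_left (hgm i).1 4)
  have hδg : ∀ i, c / Real.log (g i) ≤ δ := by
    intro i
    have h1 : Real.log m ≤ Real.log (g i) :=
      Real.log_le_log (by linarith) (by exact_mod_cast (hgm i).1)
    exact div_le_div_of_nonneg_left hc.le hlogm h1
  have hG2 : 2 ≤ G := by omega
  have hG : ∀ i, (({h ∈ traceSet q (g i) | ¬ (Irreducible h ∧ NiceB q (g i) h)}.ncard : ℕ) : ℝ) ≤
        δ * (traceSet q (g i)).ncard ∧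
      ((traceSet q (g i)).ncard : ℝ) ≤
        8 * (({h ∈ traceSet q (g i) | ¬ (p : ℤ) ∣ h.coeff 0}.ncard : ℕ) : ℝ) ∧
      ((g i : ℝ) + 1) * (preSet q (g i) (g i - 1)).ncard ≤ δ * (traceSet q (g i)).ncard ∧
      1 ≤ δ * g i := by
    intro i
    obtain ⟨h1, h2, h3, h4⟩ := hG' (g i) (hg i)
    have h5 := hδg i
    refine ⟨h1.trans (mul_le_mul_of_nonneg_right h5 (Nat.cast_nonneg _)), h2,
      h3.trans (mul_le_mul_of_nonneg_right h5 (Nat.cast_nonneg _)),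
      h4.trans (mul_le_mul_of_nonneg_right h5 (Nat.cast_nonneg _))⟩
  let T : Fin k → Finset ℤ[X] := fun i => (traceSet_finite q (g i)).toFinset
  have hT : ∀ i h, h ∈ T i ↔ h ∈ traceSet q (g i) := fun i h => Set.Finite.mem_toFinset _
  have hTc : ∀ i, (traceSet q (g i)).ncard = (T i).card := fun i =>
    Set.ncard_eq_toFinset_card _ (traceSet_finite q (g i))
  let B : Fin k → ℤ[X] → Prop := fun i h => ¬ (Irreducible h ∧ NiceB q (g i) h)
  let ℓ : Fin k → ℤ[X] → ℕ := fun i h => if hh : NiceB q (g i) h then hh.choose else 0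
  have hℓ : ∀ i h, NiceB q (g i) h → g i ^ 5 < ℓ i h ∧ NiceAt q h (ℓ i h) := by
    intro i h hh
    have : ℓ i h = hh.choose := dif_pos hh
    rw [this]
    exact hh.choose_spec
  let D : Fin k → Fin k → ℤ[X] → ℤ[X] → Prop := fun i _ x y => ¬ FineAt q y (ℓ i x)
  have hsep : ∀ (i : Fin k) (Pr : ℤ[X] → Prop),
      {h ∈ traceSet q (g i) | Pr h} = {h | h ∈ T i ∧ Pr h} := by
    intro i Pr
    ext h
    exact and_congr_left fun _ => (hT i h).symm
  have hB : ∀ i, (({y | y ∈ T i ∧ B i y}.ncard : ℕ) : ℝ) ≤ 3 * δ * (T i).card := by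
    intro i
    have h1 := (hG i).1
    rw [hsep, hTc] at h1
    refine h1.trans ?_
    have : (0 : ℝ) ≤ δ * (T i).card := by positivity
    linarith
  have hD : ∀ i j, i ≠ j → ∀ x ∈ T i, ¬ B i x →
      (({y | y ∈ T j ∧ D i j x y}.ncard : ℕ) : ℝ) ≤ 3 * δ * (T j).card := by
    intro i j _ x _ hx
    have hnice : NiceB q (g i) x := (not_not.1 hx).2
    obtain ⟨hbig, hat⟩ := hℓ i x hnice
    have hgi : 2 ≤ g i := hG2.trans (hg i)
    have hgj : 2 ≤ g j := hG2.trans (hg j)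
    have h54 : g i ^ 4 ≤ g i ^ 5 := Nat.pow_le_pow_right (by omega) (by norm_num)
    have hlg : g j < ℓ i x := lt_of_le_of_lt ((hgg i j).trans h54) hbig
    have h1 := fine_count (q := q) (g := g j) (by omega) hat.1 hlg
    rw [hsep, hTc] at h1
    refine h1.trans ?_
    obtain ⟨_, _, h2, _⟩ := hG j
    obtain ⟨_, _, _, h3⟩ := hG i
    rw [hTc] at h2
    have hc0 : (0 : ℝ) ≤ (T j).card := Nat.cast_nonneg _
    have hℓpos : (0 : ℝ) < ℓ i x := by exact_mod_cast (by omega : 0 < ℓ i x)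
    have h4 : ((g j : ℝ) + 1) / ℓ i x ≤ 2 * δ := by
      rw [div_le_iff₀ hℓpos]
      have e1 : (g j : ℝ) ≤ (g i : ℝ) ^ 4 := by exact_mod_cast hgg i j
      have e2 : (g i : ℝ) ^ 5 ≤ ℓ i x := by exact_mod_cast hbig.le
      have e3 : (1 : ℝ) ≤ g i := by exact_mod_cast (by omega : 1 ≤ g i)
      have e4 : (1 : ℝ) ≤ (g i : ℝ) ^ 4 := one_le_pow₀ e3
      have e5 : 1 ≤ δ * g i := h3
      calc (g j : ℝ) + 1 ≤ (g i : ℝ) ^ 4 + (g i : ℝ) ^ 4 := add_le_add e1 e4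
        _ = 2 * (1 * (g i : ℝ) ^ 4) := by ring
        _ ≤ 2 * (δ * g i * (g i : ℝ) ^ 4) := by
            have : (0 : ℝ) ≤ (g i : ℝ) ^ 4 := by positivity
            nlinarith
        _ = 2 * δ * (g i : ℝ) ^ 5 := by ring
        _ ≤ 2 * δ * ℓ i x := mul_le_mul_of_nonneg_left e2 (by positivity)
    calc ((g j : ℝ) + 1) * ((T j).card / ℓ i x + (preSet q (g j) (g j - 1)).ncard)
        = ((g j : ℝ) + 1) / ℓ i x * (T j).card +
          ((g j : ℝ) + 1) * (preSet q (g j) (g j - 1)).ncard := by ring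
      _ ≤ 2 * δ * (T j).card + δ * (T j).card :=
          add_le_add (mul_le_mul_of_nonneg_right h4 hc0) h2
      _ = 3 * δ * (T j).card := by ring
  have hmain := tuple_ncard T B D (ε := 3 * δ) (by positivity) hB hD
  -- the bad tuples
  have hbad : (({h : Fin k → ℤ[X] | (∀ i, h i ∈ traceSet q (g i)) ∧ ¬ GoodT q h}.ncard : ℕ) : ℝ) ≤
      (({x : Fin k → ℤ[X] | (∀ i, x i ∈ T i) ∧ ((∃ i, B i (x i)) ∨
        ∃ i j, i ≠ j ∧ ¬ B i (x i) ∧ D i j (x i) (x j))}.ncard : ℕ) : ℝ) := by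
    have h1 : {h : Fin k → ℤ[X] | (∀ i, h i ∈ traceSet q (g i)) ∧ ¬ GoodT q h} ⊆
        {x : Fin k → ℤ[X] | (∀ i, x i ∈ T i) ∧ ((∃ i, B i (x i)) ∨
          ∃ i j, i ≠ j ∧ ¬ B i (x i) ∧ D i j (x i) (x j))} := by
      rintro h ⟨hh, hbad⟩
      refine ⟨fun i => (hT i _).2 (hh i), ?_⟩
      by_contra hcon
      rw [not_or, not_exists] at hcon
      obtain ⟨hc1, hc2⟩ := hcon
      apply hbad
      have hc1' : ∀ i, Irreducible (h i) ∧ NiceB q (g i) (h i) := fun i => not_not.1 (hc1 i)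
      refine goodT_of (by omega) h (fun i => (hh i).1) ?_ (fun i => (hc1' i).1) ?_
      · intro i
        rw [(hh i).2.1]
        exact hG2.trans (hg i)
      · intro i
        refine ⟨ℓ i (h i), (hℓ i (h i) (hc1' i).2).2, fun j hj => ?_⟩
        by_contra hf
        exact hc2 ⟨i, j, hj.symm, hc1 i, hf⟩
    have hfin : {x : Fin k → ℤ[X] | (∀ i, x i ∈ T i) ∧ ((∃ i, B i (x i)) ∨
          ∃ i j, i ≠ j ∧ ¬ B i (x i) ∧ D i j (x i) (x j))}.Finite := by
      refine (Finset.finite_toSet (Fintype.piFinset T)).subset fun x hx => ?_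
      rw [Finset.mem_coe, Fintype.mem_piFinset]
      exact hx.1
    exact_mod_cast Set.ncard_le_ncard h1 hfin
  -- the ordinary tuples
  let O : Fin k → ℝ := fun i => (({h ∈ traceSet q (g i) | ¬ (p : ℤ) ∣ h.coeff 0}.ncard : ℕ) : ℝ)
  have hord : ((({h : Fin k → ℤ[X] | ∀ i, h i ∈ traceSet q (g i) ∧
      ¬ (p : ℤ) ∣ (h i).coeff 0}.ncard : ℕ)) : ℝ) = ∏ i, O i := by
    have hfO : ∀ i, {h ∈ traceSet q (g i) | ¬ (p : ℤ) ∣ h.coeff 0}.Finite := fun i =>
      (traceSet_finite q (g i)).subset fun h hh => hh.1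
    have h1 : {h : Fin k → ℤ[X] | ∀ i, h i ∈ traceSet q (g i) ∧ ¬ (p : ℤ) ∣ (h i).coeff 0} =
        ↑(Fintype.piFinset fun i => (hfO i).toFinset) := by
      ext h
      rw [Finset.mem_coe, Fintype.mem_piFinset]
      exact forall_congr' fun i => (Set.Finite.mem_toFinset (hfO i)).symm
    rw [h1, Set.ncard_coe_finset, Fintype.card_piFinset]
    push_cast
    refine Finset.prod_congr rfl fun i _ => ?_
    show _ = (({h ∈ traceSet q (g i) | ¬ (p : ℤ) ∣ h.coeff 0}.ncard : ℕ) : ℝ)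
    rw [Set.ncard_eq_toFinset_card _ (hfO i)]
  have hprod : ∏ i, ((T i).card : ℝ) ≤ 8 ^ k * ∏ i, O i := by
    have h1 : ∀ i ∈ (Finset.univ : Finset (Fin k)), ((T i).card : ℝ) ≤ 8 * O i := by
      intro i _
      have h2 := (hG i).2.1
      rwa [hTc] at h2
    refine (Finset.prod_le_prod (fun i _ => Nat.cast_nonneg _) h1).trans (le_of_eq ?_)
    rw [Finset.prod_mul_distrib, Finset.prod_const, Finset.card_univ, Fintype.card_fin]
  rw [hord]
  have hO0 : 0 ≤ ∏ i, O i := Finset.prod_nonneg fun i _ => Nat.cast_nonneg _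
  calc (({h : Fin k → ℤ[X] | (∀ i, h i ∈ traceSet q (g i)) ∧ ¬ GoodT q h}.ncard : ℕ) : ℝ)
      ≤ ((k : ℝ) + k * k) * (3 * δ) * ∏ i, ((T i).card : ℝ) := hbad.trans hmain
    _ ≤ ((k : ℝ) + k * k) * (3 * δ) * (8 ^ k * ∏ i, O i) :=
        mul_le_mul_of_nonneg_left hprod (by positivity)
    _ ≤ ((k : ℝ) + k * k + 1) * (3 * δ) * (8 ^ k * ∏ i, O i) := by
        refine mul_le_mul_of_nonneg_right (mul_le_mul_of_nonneg_right ?_ (by positivity))
          (by positivity)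
        linarith
    _ = c * (8 ^ k * ((k : ℝ) + k * k + 1) * 3) / Real.log m * ∏ i, O i := by
        rw [hδd]
        ring

end Pool.Agent.Helper19.AAT
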