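import Pool.Agent.Helper84.AA.Main

/-!
# AAT: the sieve with a large prime (after Helper84/AA: Delta, Sieve, Main)
-/

open Polynomial

namespace Pool.Agent.Helper19.AAT

open Pool.Agent.Helper84.AA

/-- `l` is a prime modulo which `h` is separable and which divides the resultant exactly once. -/
def NiceAt (q : ℕ) (h : ℤ[X]) (l : ℕ) : Prop :=
  l.Prime ∧ (h.map (Int.castRingHom (ZMod l))).Separable ∧
    padicValInt l (h.resultant (X ^ 2 - C (4 * (q : ℤ)))) = 1

/-- The criterion with a prime larger than `g ^ 5`. -/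
def NiceB (q g : ℕ) (h : ℤ[X]) : Prop := ∃ l : ℕ, g ^ 5 < l ∧ NiceAt q h l

theorem nice_at {q g : ℕ} (hq : 1 ≤ q) (hg : 2 ≤ g) {H : ℤ[X]} (hm : H.Monic)
    (hd : H.natDegree = g) {l : ℕ} (hl : l.Prime) (hlg : g < l) {r : ℤ}
    (hr : (l : ℤ) ^ 2 ∣ r ^ 2 - q) {t : ℤ} (h1 : (l : ℤ) ∣ H.eval (2 * r) + t)
    (h2 : ¬ (l : ℤ) ^ 2 ∣ H.eval (2 * r) + t) (h3 : ¬ (l : ℤ) ∣ Delta q H) :
    NiceAt q (H + C t) l := by
  have : Fact l.Prime := ⟨hl⟩
  have hlp : Prime (l : ℤ) := Nat.prime_iff_prime_int.1 hl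
  have hr1 : (l : ℤ) ∣ r ^ 2 - q := (Dvd.intro_left (l : ℤ) (by ring)).trans hr
  -- the factors of `Delta`
  have hΔ : Delta q H = 2 * q * odO q H * (Gpol q H).resultant (derivative H) := rfl
  rw [hΔ] at h3
  have hn2 : ¬ (l : ℤ) ∣ 2 := fun h => h3 (by
    exact Dvd.dvd.mul_right (Dvd.dvd.mul_right (Dvd.dvd.mul_right h _) _) _)
  have hnq : ¬ (l : ℤ) ∣ q := fun h => h3 (by
    exact Dvd.dvd.mul_right (Dvd.dvd.mul_right (Dvd.dvd.mul_left h _) _) _)
  have hnO : ¬ (l : ℤ) ∣ odO q H := fun h => h3 (Dvd.dvd.mul_right (Dvd.dvd.mul_left h _) _)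
  have hnR : ¬ (l : ℤ) ∣ (Gpol q H).resultant (derivative H) := fun h => h3 (Dvd.dvd.mul_left h _)
  have hnr : ¬ (l : ℤ) ∣ r := by
    intro h
    apply hnq
    have h4 : (l : ℤ) ∣ r ^ 2 := Dvd.dvd.trans h (Dvd.intro_left r (by ring))
    have h5 := dvd_sub h4 hr1
    rwa [sub_sub_cancel] at h5
  have hev1 := eval_two q H r l hr1
  have hev2 := eval_two q H (-r) l (by rw [neg_sq]; exact hr1)
  -- the value at `-2r`
  have hneg : ¬ (l : ℤ) ∣ H.eval (-(2 * r)) + t := by
    intro h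
    have e1 : (2 : ℤ) * -r = -(2 * r) := by ring
    rw [e1] at hev2
    have h4 : (l : ℤ) ∣ 2 * (2 * r * odO q H) := by
      have h5 := dvd_sub (dvd_sub h1 h) (dvd_sub hev1 hev2)
      have e2 : H.eval (2 * r) + t - (H.eval (-(2 * r)) + t) -
          (H.eval (2 * r) - (evE q H + 2 * r * odO q H) -
            (H.eval (-(2 * r)) - (evE q H + -(2 * r) * odO q H))) = 2 * (2 * r * odO q H) := by
        ring
      rwa [e2] at h5
    rcases hlp.dvd_or_dvd h4 with h5 | h5
    · exact hn2 h5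
    rcases hlp.dvd_or_dvd h5 with h6 | h6
    · rcases hlp.dvd_or_dvd h6 with h7 | h7
      · exact hn2 h7
      · exact hnr h7
    · exact hnO h6
  have hmt : (H + C t).Monic := by
    apply hm.add_of_left
    refine lt_of_le_of_lt degree_C_le ?_
    rw [Polynomial.degree_eq_natDegree hm.ne_zero, hd]
    exact_mod_cast (by omega : 0 < g)
  have hdt : (H + C t).natDegree = g := by
    rw [natDegree_add_C, hd]
  refine ⟨hl, ?_, ?_⟩
  · -- separability
    set φ := Int.castRingHom (ZMod l) with hφ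
    have hφ0 : ∀ z : ℤ, φ z = 0 ↔ (l : ℤ) ∣ z := fun z => by
      rw [hφ, eq_intCast]
      exact ZMod.intCast_zmod_eq_zero_iff_dvd z l
    have hMon1 : (H - C (evE q H)).Monic := by
      apply hm.sub_of_left
      refine lt_of_le_of_lt degree_C_le ?_
      rw [Polynomial.degree_eq_natDegree hm.ne_zero, hd]
      exact_mod_cast (by omega : 0 < g)
    have hd1 : (H - C (evE q H)).natDegree = g := by rw [natDegree_sub_C, hd]
    have hMonG : (Gpol q H).Monic := by
      unfold Gpol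
      apply (hMon1.pow 2).sub_of_left
      refine lt_of_le_of_lt degree_C_le ?_
      rw [Polynomial.degree_eq_natDegree (hMon1.pow 2).ne_zero, hMon1.natDegree_pow, hd1]
      exact_mod_cast (by omega : 0 < 2 * g)
    have hlead : (derivative H).coeff (g - 1) = g := by
      rw [coeff_derivative, Nat.sub_add_cancel (by omega : 1 ≤ g)]
      have h5 : H.coeff g = 1 := by rw [← hd]; exact hm.coeff_natDegree
      rw [h5, Nat.cast_sub (by omega : 1 ≤ g)]
      ring
    have hnd : (derivative H).natDegree = g - 1 := by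
      apply le_antisymm
      · have := natDegree_derivative_le H
        omega
      · apply le_natDegree_of_ne_zero
        rw [hlead]
        exact_mod_cast (by omega : g ≠ 0)
    have hgl : φ (g : ℤ) ≠ 0 := by
      rw [Ne, hφ0]
      intro h
      have h5 : l ∣ g := by exact_mod_cast h
      have := Nat.le_of_dvd (by omega) h5
      omega
    have hnd' : ((derivative H).map φ).natDegree = (derivative H).natDegree := by
      apply natDegree_map_of_leadingCoeff_ne_zero
      rw [leadingCoeff, hnd, hlead]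
      exact hgl
    have hres : ((Gpol q H).map φ).resultant ((derivative H).map φ) =
        φ ((Gpol q H).resultant (derivative H)) := by
      rw [hMonG.natDegree_map φ, hnd']
      exact resultant_map_map _ _ _ _ φ
    have hcop : IsCoprime ((Gpol q H).map φ) ((derivative H).map φ) := by
      rw [← isUnit_resultant_iff_isCoprime (hMonG.map φ), hres, isUnit_iff_ne_zero, Ne, hφ0]
      exact hnR
    have hφq : φ (q : ℤ) = φ r ^ 2 := by
      have h5 := (hφ0 _).2 hr1
      rw [map_sub, map_pow] at h5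
      exact (sub_eq_zero.1 h5).symm
    have hφt : φ t = -(φ (evE q H) + 2 * φ r * φ (odO q H)) := by
      have h5 := (hφ0 _).2 h1
      have h6 := (hφ0 _).2 hev1
      rw [map_add] at h5
      rw [map_sub, map_add, map_mul, map_mul] at h6
      have h7 : φ 2 = 2 := by simp
      rw [h7] at h6
      have h8 := sub_eq_zero.1 h6
      rw [h8] at h5
      exact eq_neg_of_add_eq_zero_right h5
    have hfac : (Gpol q H).map φ = ((H + C t).map φ) *
        (H.map φ - C (φ (evE q H)) + C (2 * φ r * φ (odO q H))) := by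
      unfold Gpol
      rw [Polynomial.map_sub, Polynomial.map_pow, Polynomial.map_sub, Polynomial.map_C,
        Polynomial.map_C, Polynomial.map_add, Polynomial.map_C, hφt]
      have h7 : φ (4 * (q : ℤ) * odO q H ^ 2) = (2 * φ r * φ (odO q H)) ^ 2 := by
        rw [map_mul, map_mul, hφq, map_pow]
        have h8 : φ 4 = 4 := by simp
        rw [h8]
        ring
      rw [h7, C_neg, C_add, C_pow]
      ring
    rw [hfac] at hcop
    have hcop2 := hcop.of_mul_left_left
    have hder : derivative ((H + C t).map φ) = (derivative H).map φ := by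
      rw [derivative_map, derivative_add, derivative_C, add_zero]
    rw [Polynomial.Separable, hder]
    exact hcop2
  · -- the resultant
    set ψ := Int.castRingHom (ZMod (l ^ 2)) with hψ
    have hψ0 : ∀ z : ℤ, ψ z = 0 ↔ (l : ℤ) ^ 2 ∣ z := fun z => by
      rw [hψ, eq_intCast, ZMod.intCast_zmod_eq_zero_iff_dvd]
      push_cast
      exact Iff.rfl
    have hψq : ψ (q : ℤ) = ψ r ^ 2 := by
      have h5 := (hψ0 _).2 hr
      rw [map_sub, map_pow] at h5
      exact (sub_eq_zero.1 h5).symm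
    have : Fact (1 < l ^ 2) := ⟨Nat.one_lt_pow (by norm_num) hl.one_lt⟩
    set R := (H + C t).resultant (X ^ 2 - C (4 * (q : ℤ))) with hR
    have hnd2 : (X ^ 2 - C (4 * (q : ℤ)) : ℤ[X]).natDegree = 2 := natDegree_X_pow_sub_C
    -- the factorisation of the resultant modulo `l ^ 2`
    have hfac : (X ^ 2 - C (4 * (q : ℤ)) : ℤ[X]).map ψ = (X - C (ψ (2 * r))) *
        (X - C (ψ (-(2 * r)))) := by
      rw [Polynomial.map_sub, Polynomial.map_pow, Polynomial.map_X, Polynomial.map_C, map_mul, hψq]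
      have h8 : ψ 4 = 4 := by simp
      have h9 : ψ (2 * r) = 2 * ψ r := by rw [map_mul]; simp
      rw [map_neg, h8, h9, C_neg, C_mul, C_mul, C_pow]
      have h10 : (C (4 : ZMod (l ^ 2)) : (ZMod (l ^ 2))[X]) = 4 := rfl
      have h11 : (C (2 : ZMod (l ^ 2)) : (ZMod (l ^ 2))[X]) = 2 := rfl
      rw [h10, h11]
      ring
    have hψR : ψ R = (-1) ^ g * ψ (H.eval (2 * r) + t) * ((-1) ^ g * ψ (H.eval (-(2 * r)) + t)) := by
      rw [hR, ← resultant_map_map, hfac, hnd2, hdt]
      have h12 := resultant_mul_right ((H + C t).map ψ) (X - C (ψ (2 * r)))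
        (X - C (ψ (-(2 * r)))) g (by rw [hmt.natDegree_map ψ, hdt])
      rw [natDegree_X_sub_C, natDegree_X_sub_C] at h12
      have h13 : (1 : ℕ) + 1 = 2 := rfl
      rw [h13] at h12
      rw [h12, resultant_X_sub_C_right _ _ _ (by rw [hmt.natDegree_map ψ, hdt]),
        resultant_X_sub_C_right _ _ _ (by rw [hmt.natDegree_map ψ, hdt]), eval_map_apply,
        eval_map_apply, eval_add, eval_C, eval_add, eval_C]
    have hsign : ((-1 : ZMod (l ^ 2)) ^ g) * ((-1) ^ g) = 1 := by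
      rw [← mul_pow]
      simp
    have hprod : ψ R = ψ ((H.eval (2 * r) + t) * (H.eval (-(2 * r)) + t)) := by
      rw [hψR, map_mul]
      have : (-1) ^ g * ψ (H.eval (2 * r) + t) * ((-1) ^ g * ψ (H.eval (-(2 * r)) + t)) =
          ((-1 : ZMod (l ^ 2)) ^ g) * ((-1) ^ g) * (ψ (H.eval (2 * r) + t) *
            ψ (H.eval (-(2 * r)) + t)) := by ring
      rw [this, hsign, one_mul]
    have hdvd : (l : ℤ) ^ 2 ∣ R - (H.eval (2 * r) + t) * (H.eval (-(2 * r)) + t) := by
      rw [← hψ0, map_sub, hprod, sub_self]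
    have hA : (l : ℤ) ∣ R := by
      have h5 : (l : ℤ) ∣ R - (H.eval (2 * r) + t) * (H.eval (-(2 * r)) + t) :=
        (Dvd.intro_left (l : ℤ) (by ring)).trans hdvd
      have h6 := dvd_add h5 (Dvd.dvd.mul_right h1 (H.eval (-(2 * r)) + t))
      rwa [sub_add_cancel] at h6
    have hB : ¬ (l : ℤ) ^ 2 ∣ R := by
      intro h
      have h5 := dvd_sub h hdvd
      rw [sub_sub_cancel] at h5
      apply h2
      have hc : IsCoprime ((l : ℤ) ^ 2) (H.eval (-(2 * r)) + t) :=
        ((Prime.coprime_iff_not_dvd hlp).2 hneg).pow_left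
      exact hc.dvd_of_dvd_mul_right h5
    have hR0 : R ≠ 0 := by
      intro h
      rw [h] at hB
      exact hB (dvd_zero _)
    have hge : 1 ≤ padicValInt l R := by
      have := (padicValInt_dvd_iff 1 R).1 (by simpa using hA)
      rcases this with h | h
      · exact absurd h hR0
      · exact h
    have hlt : ¬ 2 ≤ padicValInt l R := by
      intro h
      exact hB ((padicValInt_dvd_iff 2 R).2 (Or.inr h))
    omega

theorem sieve_coreB {q : ℕ} (hq : 1 ≤ q) {η : ℝ} (hη : 0 < η) {c : ℝ}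
    (hc : ∀ g : ℕ, 1 ≤ g → ∀ h : ℤ[X], IsTrace q g h →
      |((Delta q (h - C (h.coeff 0)) : ℤ) : ℝ)| ≤ Real.exp (c * g ^ 2)) {g : ℕ} (hg5 : 3 ≤ g)
    (hP0 : 1 + 16 / η + 1 ≤ ∑ l ∈ (Finset.Ioc (g ^ 5) ⌊(1003 / 1000 : ℝ) ^ g⌋₊).filter
      (fun l => l.Prime ∧ l % (8 * q) = 1 % (8 * q)), (1 : ℝ) / l)
    (hratio : 4 / η ≤ ((101 / 100 : ℝ) / (1003 / 1000)) ^ g) (hcg : c ≤ g) (hηg : 4 / η ≤ g)
    (u : ℤ[X]) (hu : u ∈ preSet q g (g - 1)) (hD : Delta q (X * u) ≠ 0)
    (hM : (101 / 100 : ℝ) ^ g ≤ (Jset q g u).ncard) :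
      (({t ∈ Jset q g u | ¬ NiceB q g (X * u + C t)}.ncard : ℕ) : ℝ) ≤ η * (Jset q g u).ncard := by
  classical
  have hgR : (3 : ℝ) ≤ g := by exact_mod_cast hg5
  have hg0 : (0 : ℝ) < g := by linarith
  obtain ⟨a, M, hJ⟩ := Jset_Ico q g u
  have hJc : (Jset q g u).ncard = M := by
    rw [hJ]
    have : (Set.Ico a (a + M) : Set ℤ) = ((Finset.Ico a (a + (M : ℤ)) : Finset ℤ) : Set ℤ) := by
      simp
    rw [this, Set.ncard_coe_finset]
    simp
  rw [hJc] at hM ⊢
  obtain ⟨hum, hud⟩ := pre_monic (q := q) (g := g) (n := g - 1) (by omega) hu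
  have hHm : (X * u).Monic := monic_X.mul hum
  have hHd : (X * u).natDegree = g := by
    rw [natDegree_X_mul hum.ne_zero, hud]; omega
  have hpow1 : (1 : ℝ) ≤ (101 / 100 : ℝ) ^ g := one_le_pow₀ (by norm_num)
  have hM1 : (1 : ℝ) ≤ M := le_trans hpow1 hM
  have hMpos : 0 < M := by
    have : (0 : ℝ) < M := by linarith
    exact_mod_cast this
  -- the bound on the discriminant
  have ha : a ∈ Jset q g u := by
    rw [hJ]; exact ⟨le_refl _, by
      have : (0 : ℤ) < M := by exact_mod_cast hMpos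
      linarith⟩
  have hDb : |((Delta q (X * u) : ℤ) : ℝ)| ≤ Real.exp (c * g ^ 2) := by
    have h1 := hc g (by omega) (X * u + C a) ha
    have h2 : (X * u + C a : ℤ[X]).coeff 0 = a := by simp
    rw [h2] at h1
    simpa using h1
  have hDne : ((Delta q (X * u) : ℤ) : ℝ) ≠ 0 := by exact_mod_cast hD
  have hlog : Real.log |((Delta q (X * u) : ℤ) : ℝ)| ≤ c * g ^ 2 := by
    have := Real.log_le_log (abs_pos.2 hDne) hDb
    rwa [Real.log_exp] at this
  set P₀ := (Finset.Ioc (g ^ 5) ⌊(1003 / 1000 : ℝ) ^ g⌋₊).filter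
      (fun l => l.Prime ∧ l % (8 * q) = 1 % (8 * q)) with hP₀
  set P := P₀.filter (fun l : ℕ => ¬ ((l : ℤ) ∣ Delta q (X * u))) with hP
  have hmem : ∀ l ∈ P₀, l.Prime ∧ g ^ 5 < l ∧ l % (8 * q) = 1 % (8 * q) ∧
      l ≤ ⌊(1003 / 1000 : ℝ) ^ g⌋₊ := by
    intro l hl
    rw [hP₀, Finset.mem_filter, Finset.mem_Ioc] at hl
    exact ⟨hl.2.1, hl.1.1, hl.2.2, hl.1.2⟩
  have hg5pos : 3 ≤ g ^ 5 := by
    calc 3 ≤ g := hg5
      _ ≤ g ^ 5 := Nat.le_self_pow (by norm_num) g
  have hsmall : ∑ l ∈ P₀.filter (fun l : ℕ => ((l : ℤ) ∣ Delta q (X * u))), (1 : ℝ) / l ≤ 1 := by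
    have h1 := small_sum (D := Delta q (X * u)) hD hg5pos
      (P₀.filter (fun l : ℕ => ((l : ℤ) ∣ Delta q (X * u)))) (by
        intro l hl
        rw [Finset.mem_filter] at hl
        exact ⟨(hmem l hl.1).1, (hmem l hl.1).2.1, hl.2⟩)
    refine h1.trans ?_
    have h5 : (0 : ℝ) < ((g ^ 5 : ℕ) : ℝ) := by positivity
    rw [div_le_one h5]
    refine hlog.trans ?_
    push_cast
    calc c * (g : ℝ) ^ 2 ≤ g * (g : ℝ) ^ 2 := by
          apply mul_le_mul_of_nonneg_right hcg (by positivity)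
      _ = (g : ℝ) ^ 3 := by ring
      _ ≤ (g : ℝ) ^ 5 := pow_le_pow_right₀ (by linarith) (by norm_num)
  have hsum : 1 + 16 / η ≤ ∑ l ∈ P, (1 : ℝ) / l := by
    have hsplit := Finset.sum_filter_add_sum_filter_not P₀
      (fun l : ℕ => ((l : ℤ) ∣ Delta q (X * u))) (fun l => (1 : ℝ) / l)
    have : (1 + 16 / η + 1) ≤ ∑ l ∈ P₀, (1 : ℝ) / l := hP0
    rw [hP]
    linarith
  have hη16 : 0 < 16 / η := by positivity
  -- cardinality
  have hPcard : (P.card : ℝ) ≤ (1003 / 1000 : ℝ) ^ g := by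
    have h1 : P.card ≤ ⌊(1003 / 1000 : ℝ) ^ g⌋₊ := by
      calc P.card ≤ P₀.card := Finset.card_filter_le _ _
        _ ≤ (Finset.Ioc (g ^ 5) ⌊(1003 / 1000 : ℝ) ^ g⌋₊).card := Finset.card_filter_le _ _
        _ ≤ ⌊(1003 / 1000 : ℝ) ^ g⌋₊ := by rw [Nat.card_Ioc]; omega
    calc (P.card : ℝ) ≤ (⌊(1003 / 1000 : ℝ) ^ g⌋₊ : ℝ) := by exact_mod_cast h1
      _ ≤ (1003 / 1000 : ℝ) ^ g := Nat.floor_le (by positivity)
  have hPcard2 : P.card ^ 2 ≤ M := by
    have h1 : ((P.card : ℝ)) ^ 2 ≤ (101 / 100 : ℝ) ^ g := by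
      calc ((P.card : ℝ)) ^ 2 ≤ ((1003 / 1000 : ℝ) ^ g) ^ 2 :=
            pow_le_pow_left₀ (Nat.cast_nonneg _) hPcard 2
        _ = ((1003 / 1000 : ℝ) ^ 2) ^ g := by rw [← pow_mul, ← pow_mul, mul_comm]
        _ ≤ (101 / 100 : ℝ) ^ g := pow_le_pow_left₀ (by norm_num) (by norm_num) g
    have h2 : ((P.card ^ 2 : ℕ) : ℝ) ≤ M := by push_cast; linarith
    exact_mod_cast h2
  have hPη : (P.card : ℝ) ≤ η / 4 * M := by
    have h1 : (1003 / 1000 : ℝ) ^ g * (4 / η) ≤ (101 / 100 : ℝ) ^ g := by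
      rw [div_pow] at hratio
      have h3 : (0 : ℝ) < (1003 / 1000 : ℝ) ^ g := by positivity
      rw [le_div_iff₀ h3] at hratio
      linarith
    have h2 : (1003 / 1000 : ℝ) ^ g ≤ η / 4 * (101 / 100 : ℝ) ^ g := by
      have h4 : η / 4 * ((1003 / 1000 : ℝ) ^ g * (4 / η)) = (1003 / 1000 : ℝ) ^ g := by
        field_simp
      rw [← h4]
      exact mul_le_mul_of_nonneg_left h1 (by positivity)
    calc (P.card : ℝ) ≤ (1003 / 1000 : ℝ) ^ g := hPcard
      _ ≤ η / 4 * (101 / 100 : ℝ) ^ g := h2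
      _ ≤ η / 4 * M := mul_le_mul_of_nonneg_left hM (by positivity)
  -- the square roots
  have hroot : ∀ l : ℕ, ∃ r : ℤ, l ∈ P → (l : ℤ) ^ 2 ∣ r ^ 2 - q := by
    intro l
    by_cases hl : l ∈ P
    · have hl0 : l ∈ P₀ := Finset.mem_of_mem_filter l hl
      obtain ⟨r, hr⟩ := exists_sqrt hq (hmem l hl0).1 (hmem l hl0).2.2.1
      exact ⟨r, fun _ => hr⟩
    · exact ⟨0, fun h => absurd h hl⟩
  choose r hr using hroot
  have ht1 := turan a M P (fun l hl => (hmem l (Finset.mem_of_mem_filter l hl)).1)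
    (fun l => - (X * u).eval (2 * r l)) hPcard2 (by linarith)
  have ht2 := square_div a M (g ^ 5) (by omega) P
    (fun l hl => (hmem l (Finset.mem_of_mem_filter l hl)).2.1)
    (fun l => - (X * u).eval (2 * r l))
  set F1 := (Finset.Ico a (a + (M : ℤ))).filter fun t => ∀ l ∈ P,
    ¬ (l : ℤ) ∣ t - - (X * u).eval (2 * r l) with hF1
  set F2 := (Finset.Ico a (a + (M : ℤ))).filter fun t => ∃ l ∈ P,
    ((l : ℤ) ^ 2) ∣ t - - (X * u).eval (2 * r l) with hF2
  have hsub : {t ∈ Jset q g u | ¬ NiceB q g (X * u + C t)} ⊆ ((F1 ∪ F2 : Finset ℤ) : Set ℤ) := by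
    rintro t ⟨htJ, htN⟩
    have htI : t ∈ Finset.Ico a (a + (M : ℤ)) := by
      rw [hJ] at htJ
      exact Finset.mem_Ico.2 htJ
    by_contra hcon
    rw [Finset.mem_coe, Finset.mem_union, not_or] at hcon
    obtain ⟨hc1, hc2⟩ := hcon
    rw [hF1, Finset.mem_filter, not_and] at hc1
    rw [hF2, Finset.mem_filter, not_and] at hc2
    have hc1' := hc1 htI
    have hc2' := hc2 htI
    push Not at hc1' hc2'
    obtain ⟨l, hlP, hl1⟩ := hc1'
    have hl2 := hc2' l hlP
    have hl0 : l ∈ P₀ := Finset.mem_of_mem_filter l hlP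
    have hlD : ¬ (l : ℤ) ∣ Delta q (X * u) := (Finset.mem_filter.1 hlP).2
    have hgl : g < l := lt_of_le_of_lt (Nat.le_self_pow (by norm_num) g) (hmem l hl0).2.1
    have e1 : t - - (X * u).eval (2 * r l) = (X * u).eval (2 * r l) + t := by ring
    rw [e1] at hl1 hl2
    exact htN ⟨l, (hmem l hl0).2.1,
      nice_at hq (by omega) hHm hHd (hmem l hl0).1 hgl (hr l hlP) hl1 hl2 hlD⟩
  have hcardle : ({t ∈ Jset q g u | ¬ NiceB q g (X * u + C t)}.ncard : ℝ) ≤
      (F1.card : ℝ) + F2.card := by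
    have h1 : {t ∈ Jset q g u | ¬ NiceB q g (X * u + C t)}.ncard ≤ (F1 ∪ F2).card := by
      rw [← Set.ncard_coe_finset]
      exact Set.ncard_le_ncard hsub (Finset.finite_toSet _)
    have h2 : (F1 ∪ F2).card ≤ F1.card + F2.card := Finset.card_union_le _ _
    exact_mod_cast h1.trans h2
  have hb1 : (F1.card : ℝ) ≤ η / 4 * M := by
    refine ht1.trans ?_
    have hS : (16 / η : ℝ) ≤ ∑ l ∈ P, (1 : ℝ) / l := by linarith
    rw [div_le_iff₀ (by linarith)]
    have h3 : η / 4 * (M : ℝ) * (16 / η) = 4 * M := by field_simp; ring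
    have h4 : η / 4 * (M : ℝ) * (16 / η) ≤ η / 4 * (M : ℝ) * ∑ l ∈ P, (1 : ℝ) / l :=
      mul_le_mul_of_nonneg_left hS (by positivity)
    linarith
  have hb2 : (F2.card : ℝ) ≤ η / 4 * M + η / 4 * M := by
    refine ht2.trans (add_le_add ?_ hPη)
    have h5 : (0 : ℝ) < ((g ^ 5 : ℕ) : ℝ) := by positivity
    rw [div_le_iff₀ h5]
    have h6 : (4 / η : ℝ) ≤ ((g ^ 5 : ℕ) : ℝ) := by
      refine hηg.trans ?_
      exact_mod_cast Nat.le_self_pow (by norm_num) g
    have h7 : η / 4 * (M : ℝ) * (4 / η) = M := by field_simp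
    have h8 : η / 4 * (M : ℝ) * (4 / η) ≤ η / 4 * (M : ℝ) * ((g ^ 5 : ℕ) : ℝ) :=
      mul_le_mul_of_nonneg_left h6 (by positivity)
    linarith
  have hfin : (0 : ℝ) ≤ η * M := by positivity
  calc (({t ∈ Jset q g u | ¬ NiceB q g (X * u + C t)}.ncard : ℕ) : ℝ)
      ≤ (F1.card : ℝ) + F2.card := hcardle
    _ ≤ η / 4 * M + (η / 4 * M + η / 4 * M) := add_le_add hb1 hb2
    _ ≤ η * M := by linarith

theorem sieveB {q : ℕ} (hq : 1 ≤ q) {η : ℝ} (hη : 0 < η) : ∃ G : ℕ, ∀ g ≥ G,
    ∀ u ∈ preSet q g (g - 1), Delta q (X * u) ≠ 0 →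
      (101 / 100 : ℝ) ^ g ≤ (Jset q g u).ncard →
      (({t ∈ Jset q g u | ¬ NiceB q g (X * u + C t)}.ncard : ℕ) : ℝ) ≤ η * (Jset q g u).ncard := by
  obtain ⟨c, hc⟩ := delta_bound q hq
  have hm8 : 0 < 8 * q := by omega
  obtain ⟨G₁, hG₁⟩ := prime_sum (8 * q) hm8 (1 + 16 / η + 1)
  have htend : Filter.Tendsto (fun n : ℕ => ((101 / 100 : ℝ) / (1003 / 1000)) ^ n)
      Filter.atTop Filter.atTop := tendsto_pow_atTop_atTop_of_one_lt (by norm_num)
  obtain ⟨G₂, hG₂⟩ := Filter.eventually_atTop.1 (htend.eventually_ge_atTop (4 / η))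
  obtain ⟨G₃, hG₃⟩ := exists_nat_ge c
  obtain ⟨G₄, hG₄⟩ := exists_nat_ge (4 / η)
  refine ⟨max (max G₁ G₂) (max (max G₃ G₄) 3), fun g hg u hu hD hM => ?_⟩
  have hg1 : G₁ ≤ g := le_trans (le_trans (le_max_left _ _) (le_max_left _ _)) hg
  have hg2 : G₂ ≤ g := le_trans (le_trans (le_max_right _ _) (le_max_left _ _)) hg
  have hg3 : G₃ ≤ g :=
    le_trans (le_trans (le_trans (le_max_left _ _) (le_max_left _ _)) (le_max_right _ _)) hg
  have hg4 : G₄ ≤ g :=
    le_trans (le_trans (le_trans (le_max_right _ _) (le_max_left _ _)) (le_max_right _ _)) hg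
  have hg5 : 3 ≤ g := le_trans (le_trans (le_max_right _ _) (le_max_right _ _)) hg
  exact sieve_coreB hq hη hc hg5 (hG₁ g hg1) (hG₂ g hg2) (le_trans hG₃ (by exact_mod_cast hg3))
    (le_trans hG₄ (by exact_mod_cast hg4)) u hu hD hM

/-- The quantitative form of the sieve. -/
theorem sieve_logB {q : ℕ} (hq : 1 ≤ q) : ∃ c : ℝ, 0 < c ∧ ∃ G : ℕ, ∀ g ≥ G,
    ∀ u ∈ preSet q g (g - 1), Delta q (X * u) ≠ 0 →
      (101 / 100 : ℝ) ^ g ≤ (Jset q g u).ncard →
      (({t ∈ Jset q g u | ¬ NiceB q g (X * u + C t)}.ncard : ℕ) : ℝ) ≤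
        c / Real.log g * (Jset q g u).ncard := by
  obtain ⟨c, hc⟩ := delta_bound q hq
  have hm8 : 0 < 8 * q := by omega
  obtain ⟨κ, hκ, G₁, hG₁⟩ := prime_sum_log (8 * q) hm8
  have hlim : Filter.Tendsto (fun n : ℕ => (n : ℝ) * ((1003 / 1000 : ℝ) / (101 / 100)) ^ n)
      Filter.atTop (nhds 0) := tendsto_self_mul_const_pow_of_lt_one (by norm_num) (by norm_num)
  obtain ⟨G₂, hG₂⟩ := Filter.eventually_atTop.1
    (hlim.eventually (gt_mem_nhds (show (0 : ℝ) < 8 / κ by positivity)))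
  obtain ⟨G₃, hG₃⟩ := exists_nat_ge c
  have hsq : Filter.Tendsto (fun n : ℕ => Real.log (n : ℝ)) Filter.atTop Filter.atTop :=
    Real.tendsto_log_atTop.comp tendsto_natCast_atTop_atTop
  obtain ⟨G₄, hG₄⟩ := Filter.eventually_atTop.1 (hsq.eventually_ge_atTop (4 / κ))
  obtain ⟨G₅, hG₅⟩ := Filter.eventually_atTop.1
    (((Real.isLittleO_log_id_atTop.comp_tendsto tendsto_natCast_atTop_atTop).def
      (show (0 : ℝ) < 8 / κ by positivity)))
  refine ⟨32 / κ, by positivity, max (max (max G₁ G₂) (max G₃ G₄)) (max G₅ 3),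
    fun g hg u hu hD hM => ?_⟩
  have hg1 : G₁ ≤ g := le_trans (by simp) hg
  have hg2 : G₂ ≤ g := le_trans (by simp) hg
  have hg3 : G₃ ≤ g := le_trans (by simp) hg
  have hg4 : G₄ ≤ g := le_trans (by simp) hg
  have hg5' : G₅ ≤ g := le_trans (by simp) hg
  have hg5 : 3 ≤ g := le_trans (by simp) hg
  have hgR : (3 : ℝ) ≤ g := by exact_mod_cast hg5
  have hlog : 0 < Real.log g := Real.log_pos (by linarith)
  have hη : 0 < 32 / κ / Real.log g := by positivity
  have e16 : 16 / (32 / κ / Real.log g) = κ / 2 * Real.log g := by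
    field_simp
    norm_num
  have e4 : 4 / (32 / κ / Real.log g) = κ / 8 * Real.log g := by
    field_simp
    norm_num
  have hl := hG₅ g hg5'
  simp only [Function.comp, id, Real.norm_eq_abs] at hl
  rw [abs_of_pos hlog, abs_of_pos (by linarith : (0 : ℝ) < g)] at hl
  have hlg : κ / 8 * Real.log g ≤ g := by
    calc κ / 8 * Real.log g ≤ κ / 8 * (8 / κ * g) :=
          mul_le_mul_of_nonneg_left hl (by positivity)
      _ = g := by field_simp
  refine sieve_coreB hq hη hc hg5 ?_ ?_ (le_trans hG₃ (by exact_mod_cast hg3)) ?_ u hu hD hM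
  · refine le_trans ?_ (hG₁ g hg1)
    rw [e16]
    have h4 := hG₄ g hg4
    have h5 : 2 ≤ κ / 2 * Real.log g := by
      calc (2 : ℝ) = κ / 2 * (4 / κ) := by field_simp; norm_num
        _ ≤ κ / 2 * Real.log g := mul_le_mul_of_nonneg_left h4 (by positivity)
    linarith
  · rw [e4]
    have h2 := hG₂ g hg2
    have h6 : ((101 / 100 : ℝ) / (1003 / 1000)) ^ g * ((1003 / 1000 : ℝ) / (101 / 100)) ^ g = 1 := by
      rw [← mul_pow]
      norm_num
    have h7 : (0 : ℝ) < ((101 / 100 : ℝ) / (1003 / 1000)) ^ g := by positivity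
    have h8 : κ / 8 * Real.log g ≤ κ / 8 * g := by
      have := (Real.log_le_sub_one_of_pos (by linarith : (0 : ℝ) < g))
      apply mul_le_mul_of_nonneg_left _ (by positivity)
      linarith
    have h9 : κ / 8 * g ≤ ((101 / 100 : ℝ) / (1003 / 1000)) ^ g := by
      calc κ / 8 * g = κ / 8 * (g * ((1003 / 1000 : ℝ) / (101 / 100)) ^ g) *
            ((101 / 100 : ℝ) / (1003 / 1000)) ^ g := by
            rw [mul_assoc, mul_assoc, mul_comm (((1003 / 1000 : ℝ) / (101 / 100)) ^ g), h6, mul_one]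
        _ ≤ κ / 8 * (8 / κ) * ((101 / 100 : ℝ) / (1003 / 1000)) ^ g := by
            apply mul_le_mul_of_nonneg_right _ h7.le
            exact mul_le_mul_of_nonneg_left h2.le (by positivity)
        _ = _ := by field_simp
    exact h8.trans h9
  · rw [e4]
    exact hlg

/-- The final count, for one `g`. -/
theorem almost_coreB {q p g : ℕ} (hq : 16 ≤ q) (hp : p.Prime) (hg2 : 2 ≤ g) {η : ℝ} (hη : 0 ≤ η)
    (hG1 : (101 / 100 : ℝ) ^ g * (preSet q g (g - 1)).ncard ≤
      (98 / 100 : ℝ) ^ g * (traceSet q g).ncard)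
    (hG2 : (2 * (g : ℝ) + 1) * (4 * √q ^ g + 1) * (preSet q g (g - 2)).ncard ≤
      (98 / 100 : ℝ) ^ g * (traceSet q g).ncard)
    (hG3 : ∑ k ∈ Finset.Icc 1 (g / 2), ((traceSet q k).ncard : ℝ) * (traceSet q (g - k)).ncard ≤
      (98 / 100 : ℝ) ^ g * (traceSet q g).ncard)
    (hG4 : ∀ u ∈ preSet q g (g - 1), Delta q (X * u) ≠ 0 →
      (101 / 100 : ℝ) ^ g ≤ (Jset q g u).ncard →
        (({t ∈ Jset q g u | ¬ NiceB q g (X * u + C t)}.ncard : ℕ) : ℝ) ≤ η * (Jset q g u).ncard)
    (hθ2 : (98 / 100 : ℝ) ^ g ≤ 1 / 2) :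
    (({h ∈ traceSet q g | ¬ (Irreducible h ∧ NiceB q g h)}.ncard : ℕ) : ℝ) ≤
      (3 * (98 / 100 : ℝ) ^ g + η) * (traceSet q g).ncard ∧
      ((traceSet q g).ncard : ℝ) ≤
        8 * (({h ∈ traceSet q g | ¬ (p : ℤ) ∣ h.coeff 0}.ncard : ℕ) : ℝ) := by
  classical
  have hθ0 : (0 : ℝ) ≤ (98 / 100 : ℝ) ^ g := by positivity
  set N : ℝ := ((traceSet q g).ncard : ℝ) with hN
  have hN0 : 0 ≤ N := Nat.cast_nonneg _
  set P1 := (preSet_finite q g (g - 1)).toFinset with hP1
  set P2 := (preSet_finite q g (g - 2)).toFinset with hP2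
  have hP1c : (P1.card : ℝ) = (preSet q g (g - 1)).ncard := by
    rw [Set.ncard_eq_toFinset_card _ (preSet_finite q g (g - 1))]
  have hP2c : (P2.card : ℝ) = (preSet q g (g - 2)).ncard := by
    rw [Set.ncard_eq_toFinset_card _ (preSet_finite q g (g - 2))]
  have hNsum : N = ∑ u ∈ P1, ((Jset q g u).ncard : ℝ) := by
    have h1 := fib (q := q) (g := g) (by omega) fun _ => True
    simp only [and_true] at h1
    have h2 : {h | h ∈ traceSet q g} = traceSet q g := rfl
    have h3 : ∀ u, {t | t ∈ Jset q g u} = Jset q g u := fun u => rfl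
    simp only [h2, h3] at h1
    rw [hN, h1]
    push_cast
    rfl
  -- the four sets
  set R := {h ∈ traceSet q g | ¬ Irreducible h} with hR
  set D := {h ∈ traceSet q g | Delta q (X * divX h) = 0} with hD
  set S := {h ∈ traceSet q g | ((Jset q g (divX h)).ncard : ℝ) < (101 / 100 : ℝ) ^ g} with hS
  set E := {h ∈ traceSet q g | Delta q (X * divX h) ≠ 0 ∧
    (101 / 100 : ℝ) ^ g ≤ (Jset q g (divX h)).ncard ∧ ¬ NiceB q g h} with hE
  have hTfin := traceSet_finite q g
  have hsub : {h ∈ traceSet q g | ¬ (Irreducible h ∧ NiceB q g h)} ⊆ R ∪ D ∪ S ∪ E := by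
    rintro h ⟨hh, hb⟩
    by_cases hi : Irreducible h
    · by_cases hd : Delta q (X * divX h) = 0
      · exact Or.inl (Or.inl (Or.inr ⟨hh, hd⟩))
      · by_cases hs : ((Jset q g (divX h)).ncard : ℝ) < (101 / 100 : ℝ) ^ g
        · exact Or.inl (Or.inr ⟨hh, hs⟩)
        · exact Or.inr ⟨hh, hd, not_lt.1 hs, fun hn => hb ⟨hi, hn⟩⟩
    · exact Or.inl (Or.inl (Or.inl ⟨hh, hi⟩))
  have hfin : (R ∪ D ∪ S ∪ E).Finite :=
    (((hTfin.subset fun h hh => hh.1).union (hTfin.subset fun h hh => hh.1)).union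
      (hTfin.subset fun h hh => hh.1)).union (hTfin.subset fun h hh => hh.1)
  have hcard : (({h ∈ traceSet q g | ¬ (Irreducible h ∧ NiceB q g h)}.ncard : ℕ) : ℝ) ≤
      R.ncard + D.ncard + S.ncard + E.ncard := by
    have h1 := Set.ncard_le_ncard hsub hfin
    have h2 := Set.ncard_union_le (R ∪ D ∪ S) E
    have h3 := Set.ncard_union_le (R ∪ D) S
    have h4 := Set.ncard_union_le R D
    have h5 : {h ∈ traceSet q g | ¬ (Irreducible h ∧ NiceB q g h)}.ncard ≤
        R.ncard + D.ncard + S.ncard + E.ncard := by omega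
    exact_mod_cast h5
  -- reducible
  have bR : (R.ncard : ℝ) ≤ (98 / 100 : ℝ) ^ g * N := by
    have h1 := red_count (q := q) (g := g) (by omega)
    refine le_trans ?_ hG3
    exact_mod_cast h1
  -- short
  have bS : (S.ncard : ℝ) ≤ (98 / 100 : ℝ) ^ g * N := by
    rw [hS, fib (by omega)]
    refine le_trans ?_ hG1
    push_cast
    rw [← hP1c, ← hP1]
    calc ∑ u ∈ P1, (({t ∈ Jset q g u | ((Jset q g (divX (X * u + C t))).ncard : ℝ) <
            (101 / 100 : ℝ) ^ g}.ncard : ℕ) : ℝ) ≤ ∑ _u ∈ P1, (101 / 100 : ℝ) ^ g := by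
          refine Finset.sum_le_sum fun u _ => ?_
          by_cases hs : ((Jset q g u).ncard : ℝ) < (101 / 100 : ℝ) ^ g
          · refine le_trans ?_ hs.le
            exact_mod_cast sep_ncard_le q g u _
          · have h1 : {t ∈ Jset q g u | ((Jset q g (divX (X * u + C t))).ncard : ℝ) <
                (101 / 100 : ℝ) ^ g} = ∅ := by
              ext t
              simp only [divX_X_mul_add, hs, and_false]
              simp
            rw [h1, Set.ncard_empty, Nat.cast_zero]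
            positivity
      _ = (101 / 100 : ℝ) ^ g * P1.card := by
          rw [Finset.sum_const, nsmul_eq_mul, mul_comm]
  -- degenerate
  have bD : (D.ncard : ℝ) ≤ (98 / 100 : ℝ) ^ g * N := by
    rw [hD, fib (by omega)]
    refine le_trans ?_ hG2
    push_cast
    rw [← hP2c, ← hP1]
    have hJ0 : (0 : ℝ) ≤ 4 * √q ^ g + 1 := by positivity
    have h1 : (((P1.filter fun u => Delta q (X * u) = 0).card : ℕ) : ℝ) ≤
        (2 * (g : ℝ) + 1) * P2.card := by
      have h2 : (P1.filter fun u => Delta q (X * u) = 0).card ≤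
          (2 * g + 1) * ((P1.filter fun u => Delta q (X * u) = 0).image divX).card := by
        refine Finset.card_le_mul_card_image _ _ fun v hv => ?_
        obtain ⟨u0, hu0, rfl⟩ := Finset.mem_image.1 hv
        have hu0' : u0 ∈ preSet q g (g - 1) := by
          simpa [hP1] using (Finset.mem_filter.1 hu0).1
        have hv' : divX u0 ∈ preSet q g (g - 2) := by
          refine divX_pre (n := g - 2) (by omega) ?_
          have : g - 2 + 1 = g - 1 := by omega
          rw [this]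
          exact hu0'
        obtain ⟨hvm, hvd⟩ := pre_monic (by omega) hv'
        obtain ⟨hfin, hcard⟩ := degen (q := q) (g := g) (by omega) hg2 hvm hvd
        refine le_trans ?_ hcard
        rw [Set.ncard_eq_toFinset_card _ hfin]
        refine Finset.card_le_card_of_injOn (fun u => u.coeff 0) ?_ ?_
        · intro u hu
          simp only [Finset.coe_filter, Finset.mem_filter] at hu
          obtain ⟨⟨_, h5⟩, h6⟩ := hu
          have h7 : X * divX u0 + C (u.coeff 0) = u := by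
            rw [← h6, mul_comm]
            exact divX_mul_X_add u
          simp only [Set.Finite.coe_toFinset]
          change Delta q (X * (X * divX u0 + C (u.coeff 0))) = 0
          rw [h7]
          exact h5
        · intro u hu u' hu' h
          simp only [Finset.coe_filter, Finset.mem_filter] at hu hu'
          rw [← divX_mul_X_add u, ← divX_mul_X_add u', hu.2, hu'.2]
          simp only at h
          rw [h]
      have h3 : ((P1.filter fun u => Delta q (X * u) = 0).image divX).card ≤ P2.card := by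
        refine Finset.card_le_card ?_
        intro v hv
        obtain ⟨u0, hu0, rfl⟩ := Finset.mem_image.1 hv
        have hu0' : u0 ∈ preSet q g (g - 1) := by
          simpa [hP1] using (Finset.mem_filter.1 hu0).1
        have hv' : divX u0 ∈ preSet q g (g - 2) := by
          refine divX_pre (n := g - 2) (by omega) ?_
          have : g - 2 + 1 = g - 1 := by omega
          rw [this]
          exact hu0'
        simpa [hP2] using hv'
      have h4 : (P1.filter fun u => Delta q (X * u) = 0).card ≤ (2 * g + 1) * P2.card :=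
        h2.trans (Nat.mul_le_mul_left _ h3)
      exact_mod_cast h4
    calc ∑ u ∈ P1, (({t ∈ Jset q g u | Delta q (X * divX (X * u + C t)) = 0}.ncard : ℕ) : ℝ) ≤
          ∑ u ∈ P1, (if Delta q (X * u) = 0 then (4 * √q ^ g + 1) else 0) := by
          refine Finset.sum_le_sum fun u hu => ?_
          have hu' : u ∈ preSet q g (g - 1) := by simpa [hP1] using hu
          split_ifs with hd
          · refine le_trans ?_ (Jset_card (by omega) (by omega) hu')
            exact_mod_cast sep_ncard_le q g u _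
          · have h2 : {t ∈ Jset q g u | Delta q (X * divX (X * u + C t)) = 0} = ∅ := by
              ext t
              simp only [divX_X_mul_add, hd, and_false]
              simp
            rw [h2, Set.ncard_empty]
            simp
      _ = (((P1.filter fun u => Delta q (X * u) = 0).card : ℕ) : ℝ) * (4 * √q ^ g + 1) := by
          rw [← Finset.sum_filter, Finset.sum_const, nsmul_eq_mul]
      _ ≤ (2 * (g : ℝ) + 1) * P2.card * (4 * √q ^ g + 1) := mul_le_mul_of_nonneg_right h1 hJ0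
      _ = (2 * (g : ℝ) + 1) * (4 * √q ^ g + 1) * P2.card := by ring
  -- all the others
  have bE : (E.ncard : ℝ) ≤ η * N := by
    rw [hE, fib (by omega), hNsum, Finset.mul_sum]
    push_cast
    refine Finset.sum_le_sum fun u hu => ?_
    have hu' : u ∈ preSet q g (g - 1) := by simpa [hP1] using hu
    by_cases hd : Delta q (X * u) ≠ 0 ∧ (101 / 100 : ℝ) ^ g ≤ (Jset q g u).ncard
    · refine le_trans ?_ (hG4 u hu' hd.1 hd.2)
      have h1 : {t ∈ Jset q g u | Delta q (X * divX (X * u + C t)) ≠ 0 ∧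
          (101 / 100 : ℝ) ^ g ≤ (Jset q g (divX (X * u + C t))).ncard ∧
          ¬ NiceB q g (X * u + C t)} ⊆ {t ∈ Jset q g u | ¬ NiceB q g (X * u + C t)} :=
        fun t ht => ⟨ht.1, ht.2.2.2⟩
      exact_mod_cast Set.ncard_le_ncard h1 ((Jset_finite q g u).subset fun t ht => ht.1)
    · have h1 : {t ∈ Jset q g u | Delta q (X * divX (X * u + C t)) ≠ 0 ∧
          (101 / 100 : ℝ) ^ g ≤ (Jset q g (divX (X * u + C t))).ncard ∧
          ¬ NiceB q g (X * u + C t)} = ∅ := by
        refine Set.eq_empty_of_forall_notMem fun t ht => hd ?_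
        have h2 := ht.2
        simp only [divX_X_mul_add] at h2
        exact ⟨h2.1, h2.2.1⟩
      rw [h1, Set.ncard_empty, Nat.cast_zero]
      positivity
  -- ordinary
  set O : ℝ := (({h ∈ traceSet q g | ¬ (p : ℤ) ∣ h.coeff 0}.ncard : ℕ) : ℝ) with hO
  have bO : N - (98 / 100 : ℝ) ^ g * N ≤ 4 * O := by
    have h1 : N ≤ S.ncard + 4 * O := by
      rw [hS, hO, fib (by omega), fib (by omega), hNsum]
      push_cast
      rw [Finset.mul_sum, ← Finset.sum_add_distrib]
      refine Finset.sum_le_sum fun u hu => ?_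
      have hu' : u ∈ preSet q g (g - 1) := by simpa [hP1] using hu
      by_cases hs : ((Jset q g u).ncard : ℝ) < (101 / 100 : ℝ) ^ g
      · have h2 : {t ∈ Jset q g u | ((Jset q g (divX (X * u + C t))).ncard : ℝ) <
            (101 / 100 : ℝ) ^ g} = Jset q g u := by
          ext t
          simp only [divX_X_mul_add, hs, and_true]
          rfl
        rw [h2]
        have h3 : (0 : ℝ) ≤ 4 * (({t ∈ Jset q g u |
          ¬ (p : ℤ) ∣ (X * u + C t).coeff 0}.ncard : ℕ) : ℝ) := by positivity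
        linarith
      · push Not at hs
        have h4 : 2 ≤ (Jset q g u).ncard := by
          have h5 : (1 : ℝ) < (101 / 100 : ℝ) ^ g :=
            one_lt_pow₀ (by norm_num) (by omega)
          have h6 : (1 : ℝ) < (Jset q g u).ncard := lt_of_lt_of_le h5 hs
          have h7 : 1 < (Jset q g u).ncard := by exact_mod_cast h6
          omega
        obtain ⟨a, M, hJ⟩ := Jset_Ico q g u
        have hM : (Jset q g u).ncard = M := by
          rw [hJ, ← Finset.coe_Ico, Set.ncard_coe_finset, Int.card_Ico]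
          simp
        have h8 := quarter hp.two_le a (M := M) (by omega)
        have h9 : {t ∈ Jset q g u | ¬ (p : ℤ) ∣ (X * u + C t).coeff 0} =
            {t ∈ Set.Ico a (a + M) | ¬ (p : ℤ) ∣ t} := by
          ext t
          rw [hJ]
          simp only [coeff_X_mul_add]
        rw [h9, hM]
        have h10 : (M : ℝ) ≤ 4 * ({t ∈ Set.Ico a (a + M) | ¬ (p : ℤ) ∣ t}.ncard : ℕ) := by
          exact_mod_cast h8
        have h11 : (0 : ℝ) ≤ (({t ∈ Jset q g u | ((Jset q g (divX (X * u + C t))).ncard : ℝ) <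
          (101 / 100 : ℝ) ^ g}.ncard : ℕ) : ℝ) := Nat.cast_nonneg _
        linarith
    linarith
  have hO8 : N ≤ 8 * O := by
    have h1 : (98 / 100 : ℝ) ^ g * N ≤ 1 / 2 * N := mul_le_mul_of_nonneg_right hθ2 hN0
    linarith
  refine ⟨?_, hO8⟩
  calc (({h ∈ traceSet q g | ¬ (Irreducible h ∧ NiceB q g h)}.ncard : ℕ) : ℝ) ≤
        R.ncard + D.ncard + S.ncard + E.ncard := hcard
    _ ≤ (3 * (98 / 100 : ℝ) ^ g + η) * N := by linarith

end Pool.Agent.Helper19.AAT
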