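import Pool.Agent.Helper19.AAT.Resid

/-!
# AAT: counting pairs and tuples
-/

open Polynomial

namespace Pool.Agent.Helper19.AAT

open Pool.Agent.Helper84.AA

theorem fine_count {q g : ℕ} (hg : 1 ≤ g) {l : ℕ} (hl : l.Prime) (hlg : g < l) :
    (({h ∈ traceSet q g | ¬ FineAt q h l}.ncard : ℕ) : ℝ) ≤
      ((g : ℝ) + 1) * ((traceSet q g).ncard / l + (preSet q g (g - 1)).ncard) := by
  classical
  set P1 := (preSet_finite q g (g - 1)).toFinset with hP1
  have hP1c : (P1.card : ℝ) = (preSet q g (g - 1)).ncard := by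
    rw [Set.ncard_eq_toFinset_card _ (preSet_finite q g (g - 1))]
  have hNsum : ((traceSet q g).ncard : ℝ) = ∑ u ∈ P1, ((Jset q g u).ncard : ℝ) := by
    have h1 := fib (q := q) (g := g) (by omega) fun _ => True
    simp only [and_true] at h1
    have h2 : {h | h ∈ traceSet q g} = traceSet q g := rfl
    have h3 : ∀ u, {t | t ∈ Jset q g u} = Jset q g u := fun u => rfl
    simp only [h2, h3] at h1
    rw [h1]
    push_cast
    rfl
  rw [fib hg, hNsum, ← hP1c, ← hP1]
  push_cast
  calc ∑ u ∈ P1, (({t ∈ Jset q g u | ¬ FineAt q (X * u + C t) l}.ncard : ℕ) : ℝ)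
      ≤ ∑ u ∈ P1, ((g : ℝ) + 1) * (((Jset q g u).ncard : ℝ) / l + 1) := by
        refine Finset.sum_le_sum fun u hu => ?_
        have hu' : u ∈ preSet q g (g - 1) := by simpa [hP1] using hu
        obtain ⟨hum, hud⟩ := pre_monic (by omega) hu'
        obtain ⟨a, M, hJ⟩ := Jset_Ico q g u
        have hJc : (Jset q g u).ncard = M := by
          rw [hJ, ← Finset.coe_Ico, Set.ncard_coe_finset, Int.card_Ico]
          simp
        have h1 := resid (q := q) hg hum hud hl hlg a M
        rw [hJc]
        refine le_trans (le_of_eq ?_) h1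
        rw [hJ]
        have h2 : {t ∈ Set.Ico a (a + (M : ℤ)) | ¬ FineAt q (X * u + C t) l} =
            (((Finset.Ico a (a + (M : ℤ))).filter fun t => ¬ FineAt q (X * u + C t) l :
              Finset ℤ) : Set ℤ) := by
          ext t
          simp
        rw [h2, Set.ncard_coe_finset]
    _ = ((g : ℝ) + 1) * ((∑ u ∈ P1, ((Jset q g u).ncard : ℝ)) / l + P1.card) := by
        rw [← Finset.mul_sum, Finset.sum_add_distrib, ← Finset.sum_div, Finset.sum_const,
          nsmul_eq_mul, mul_one]

section tuples

variable {α : Type} {k : ℕ}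

/-- If for all `x` at most `ε |T j|` changes of the coordinate `j` are bad, at most the proportion
`ε` of the tuples is bad. -/
theorem one_coord (T : Fin k → Finset α) (Pr : (Fin k → α) → Prop) [DecidablePred Pr] (j : Fin k)
    {ε : ℝ} (h : ∀ x ∈ Fintype.piFinset T,
      (((T j).filter fun y => Pr (Function.update x j y)).card : ℝ) ≤ ε * (T j).card) :
    (((Fintype.piFinset T).filter Pr).card : ℝ) ≤ ε * ∏ i, ((T i).card : ℝ) := by
  classical
  have hprod : ((Fintype.piFinset T).card : ℝ) = ∏ i, ((T i).card : ℝ) := by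
    rw [Fintype.card_piFinset]; push_cast; rfl
  rcases (T j).eq_empty_or_nonempty with h0 | h0
  · have h1 : Fintype.piFinset T = ∅ := by
      rw [Finset.eq_empty_iff_forall_notMem]
      intro x hx
      have := Fintype.mem_piFinset.1 hx j
      rw [h0] at this
      exact absurd this (Finset.notMem_empty _)
    rw [← hprod, h1]
    simp
  have hpos : (0 : ℝ) < (T j).card := by exact_mod_cast h0.card_pos
  -- double counting
  have h1 : (T j).card * ((Fintype.piFinset T).filter Pr).card =
      ∑ x ∈ Fintype.piFinset T, ((T j).filter fun y => Pr (Function.update x j y)).card := by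
    have e1 : (((Fintype.piFinset T).filter Pr) ×ˢ (T j)).card =
        ((Fintype.piFinset T ×ˢ T j).filter fun p => Pr (Function.update p.1 j p.2)).card := by
      refine Finset.card_bij' (fun p _ => (Function.update p.1 j p.2, p.1 j))
        (fun p _ => (Function.update p.1 j p.2, p.1 j)) ?_ ?_ ?_ ?_
      · rintro ⟨x, y⟩ hxy
        rw [Finset.mem_product, Finset.mem_filter] at hxy
        rw [Finset.mem_filter, Finset.mem_product]
        obtain ⟨⟨hx, hPx⟩, hy⟩ := hxy
        have hx' := Fintype.mem_piFinset.1 hx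
        refine ⟨⟨?_, hx' j⟩, ?_⟩
        · rw [Fintype.mem_piFinset]
          intro i
          show Function.update x j y i ∈ T i
          by_cases hi : i = j
          · subst hi; rw [Function.update_self]; exact hy
          · rw [Function.update_of_ne hi]; exact hx' i
        · show Pr (Function.update (Function.update x j y) j (x j))
          rw [Function.update_idem, Function.update_eq_self]
          exact hPx
      · rintro ⟨x, y⟩ hxy
        rw [Finset.mem_filter, Finset.mem_product] at hxy
        rw [Finset.mem_product, Finset.mem_filter]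
        obtain ⟨⟨hx, hy⟩, hPx⟩ := hxy
        have hx' := Fintype.mem_piFinset.1 hx
        refine ⟨⟨?_, hPx⟩, hx' j⟩
        rw [Fintype.mem_piFinset]
        intro i
        show Function.update x j y i ∈ T i
        by_cases hi : i = j
        · subst hi; rw [Function.update_self]; exact hy
        · rw [Function.update_of_ne hi]; exact hx' i
      · rintro ⟨x, y⟩ _
        show (Function.update (Function.update x j y) j (x j), Function.update x j y j) = (x, y)
        rw [Function.update_idem, Function.update_eq_self, Function.update_self]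
      · rintro ⟨x, y⟩ _
        show (Function.update (Function.update x j y) j (x j), Function.update x j y j) = (x, y)
        rw [Function.update_idem, Function.update_eq_self, Function.update_self]
    rw [Finset.card_product, mul_comm] at e1
    rw [e1, Finset.card_filter, Finset.sum_product]
    refine Finset.sum_congr rfl fun x _ => ?_
    rw [Finset.card_filter]
  have h2 : ((T j).card : ℝ) * ((Fintype.piFinset T).filter Pr).card ≤
      (T j).card * (ε * ∏ i, ((T i).card : ℝ)) := by
    have h3 : ((T j).card : ℝ) * ((Fintype.piFinset T).filter Pr).card =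
        ∑ x ∈ Fintype.piFinset T,
          (((T j).filter fun y => Pr (Function.update x j y)).card : ℝ) := by
      exact_mod_cast h1
    rw [h3]
    calc ∑ x ∈ Fintype.piFinset T, (((T j).filter fun y => Pr (Function.update x j y)).card : ℝ)
        ≤ ∑ _x ∈ Fintype.piFinset T, ε * (T j).card := Finset.sum_le_sum h
      _ = (T j).card * (ε * ∏ i, ((T i).card : ℝ)) := by
          rw [Finset.sum_const, nsmul_eq_mul, hprod]; ring
  exact le_of_mul_le_mul_left h2 hpos

open Classical in
theorem tuple_bad (T : Fin k → Finset α) (B : Fin k → α → Prop) (D : Fin k → Fin k → α → α → Prop)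
    {ε : ℝ} (hε : 0 ≤ ε)
    (hB : ∀ i, (((T i).filter fun y => B i y).card : ℝ) ≤ ε * (T i).card)
    (hD : ∀ i j, i ≠ j → ∀ x ∈ T i, ¬ B i x →
      (((T j).filter fun y => D i j x y).card : ℝ) ≤ ε * (T j).card) :
    (((Fintype.piFinset T).filter fun x => (∃ i, B i (x i)) ∨
      ∃ i j, i ≠ j ∧ ¬ B i (x i) ∧ D i j (x i) (x j)).card : ℝ) ≤
      ((k : ℝ) + k * k) * ε * ∏ i, ((T i).card : ℝ) := by
  set Pi : ℝ := ∏ i, ((T i).card : ℝ) with hPi
  have hPi0 : 0 ≤ Pi := Finset.prod_nonneg fun i _ => Nat.cast_nonneg _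
  let A : Fin k → Finset (Fin k → α) := fun i => (Fintype.piFinset T).filter fun x => B i (x i)
  let E : Fin k × Fin k → Finset (Fin k → α) := fun p => (Fintype.piFinset T).filter fun x =>
    p.1 ≠ p.2 ∧ ¬ B p.1 (x p.1) ∧ D p.1 p.2 (x p.1) (x p.2)
  have hsub : ((Fintype.piFinset T).filter fun x => (∃ i, B i (x i)) ∨
      ∃ i j, i ≠ j ∧ ¬ B i (x i) ∧ D i j (x i) (x j)) ⊆
      (Finset.univ.biUnion A) ∪ (Finset.univ.biUnion E) := by
    intro x hx
    rw [Finset.mem_filter] at hx
    rw [Finset.mem_union, Finset.mem_biUnion, Finset.mem_biUnion]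
    obtain ⟨hx, ⟨i, hi⟩ | ⟨i, j, hij⟩⟩ := hx
    · exact Or.inl ⟨i, Finset.mem_univ _, Finset.mem_filter.2 ⟨hx, hi⟩⟩
    · exact Or.inr ⟨(i, j), Finset.mem_univ _, Finset.mem_filter.2 ⟨hx, hij⟩⟩
  have hA : ∀ i, ((A i).card : ℝ) ≤ ε * Pi := by
    intro i
    refine one_coord T (fun x => B i (x i)) i fun x _ => ?_
    refine le_trans ?_ (hB i)
    have h1 : ((T i).filter fun y => B i (Function.update x i y i)) ⊆
        (T i).filter fun y => B i y := by
      intro y hy
      rw [Finset.mem_filter] at hy ⊢
      rw [Function.update_self] at hy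
      exact hy
    exact_mod_cast Finset.card_le_card h1
  have hE : ∀ p, ((E p).card : ℝ) ≤ ε * Pi := by
    rintro ⟨i, j⟩
    by_cases hij : i = j
    · have h0 : E (i, j) = ∅ := by
        rw [Finset.eq_empty_iff_forall_notMem]
        intro x hx
        exact (Finset.mem_filter.1 hx).2.1 hij
      rw [h0, Finset.card_empty, Nat.cast_zero]
      positivity
    · refine one_coord T (fun x => i ≠ j ∧ ¬ B i (x i) ∧ D i j (x i) (x j)) j fun x hx => ?_
      have hkey : ∀ y, (i ≠ j ∧ ¬ B i (Function.update x j y i) ∧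
          D i j (Function.update x j y i) (Function.update x j y j)) →
          ¬ B i (x i) ∧ D i j (x i) y := by
        intro y hy
        rw [Function.update_self, Function.update_of_ne hij] at hy
        exact hy.2
      by_cases hb : B i (x i)
      · have h0 : ((T j).filter fun y => (i ≠ j ∧ ¬ B i (Function.update x j y i) ∧
          D i j (Function.update x j y i) (Function.update x j y j))) = ∅ := by
          rw [Finset.eq_empty_iff_forall_notMem]
          intro y hy
          exact (hkey y (Finset.mem_filter.1 hy).2).1 hb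
        have h00 : (0 : ℝ) ≤ ε * (T j).card := by positivity
        refine le_trans (le_of_eq ?_) h00
        exact_mod_cast congrArg Finset.card h0
      · refine le_trans ?_ (hD i j hij (x i) (Fintype.mem_piFinset.1 hx i) hb)
        have h1 : ((T j).filter fun y => (i ≠ j ∧ ¬ B i (Function.update x j y i) ∧
            D i j (Function.update x j y i) (Function.update x j y j))) ⊆
            (T j).filter fun y => D i j (x i) y := by
          intro y hy
          rw [Finset.mem_filter] at hy ⊢
          exact ⟨hy.1, (hkey y hy.2).2⟩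
        exact_mod_cast Finset.card_le_card h1
  have h1 : ((((Fintype.piFinset T).filter fun x => (∃ i, B i (x i)) ∨
      ∃ i j, i ≠ j ∧ ¬ B i (x i) ∧ D i j (x i) (x j)).card : ℕ) : ℝ) ≤
      ∑ i, ((A i).card : ℝ) + ∑ p, ((E p).card : ℝ) := by
    have h2 := (Finset.card_le_card hsub).trans (Finset.card_union_le _ _)
    have h3 := h2.trans (add_le_add Finset.card_biUnion_le Finset.card_biUnion_le)
    exact_mod_cast h3
  refine h1.trans ?_
  have h2 : ∑ i, ((A i).card : ℝ) ≤ k * (ε * Pi) := by
    refine (Finset.sum_le_sum fun i _ => hA i).trans ?_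
    rw [Finset.sum_const, Finset.card_univ, Fintype.card_fin, nsmul_eq_mul]
  have h3 : ∑ p, ((E p).card : ℝ) ≤ (k * k) * (ε * Pi) := by
    refine (Finset.sum_le_sum fun i _ => hE i).trans ?_
    rw [Finset.sum_const, Finset.card_univ, Fintype.card_prod, Fintype.card_fin, nsmul_eq_mul]
    push_cast
    exact le_refl _
  calc _ ≤ k * (ε * Pi) + (k * k) * (ε * Pi) := add_le_add h2 h3
    _ = ((k : ℝ) + k * k) * ε * Pi := by ring

theorem ncard_sep (T : Finset α) (Pr : α → Prop) [DecidablePred Pr] :
    {y | y ∈ T ∧ Pr y}.ncard = (T.filter Pr).card := by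
  have h1 : {y | y ∈ T ∧ Pr y} = ↑(T.filter Pr) := by
    ext y
    simp
  rw [h1, Set.ncard_coe_finset]

theorem tuple_ncard (T : Fin k → Finset α) (B : Fin k → α → Prop)
    (D : Fin k → Fin k → α → α → Prop) {ε : ℝ} (hε : 0 ≤ ε)
    (hB : ∀ i, (({y | y ∈ T i ∧ B i y}.ncard : ℕ) : ℝ) ≤ ε * (T i).card)
    (hD : ∀ i j, i ≠ j → ∀ x ∈ T i, ¬ B i x →
      (({y | y ∈ T j ∧ D i j x y}.ncard : ℕ) : ℝ) ≤ ε * (T j).card) :
    (({x : Fin k → α | (∀ i, x i ∈ T i) ∧ ((∃ i, B i (x i)) ∨
      ∃ i j, i ≠ j ∧ ¬ B i (x i) ∧ D i j (x i) (x j))}.ncard : ℕ) : ℝ) ≤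
      ((k : ℝ) + k * k) * ε * ∏ i, ((T i).card : ℝ) := by
  classical
  have h1 : {x : Fin k → α | (∀ i, x i ∈ T i) ∧ ((∃ i, B i (x i)) ∨
      ∃ i j, i ≠ j ∧ ¬ B i (x i) ∧ D i j (x i) (x j))} =
      {x | x ∈ Fintype.piFinset T ∧ ((∃ i, B i (x i)) ∨
      ∃ i j, i ≠ j ∧ ¬ B i (x i) ∧ D i j (x i) (x j))} := by
    ext x
    simp only [Fintype.mem_piFinset]
  rw [h1, ncard_sep]
  refine tuple_bad T B D hε (fun i => ?_) fun i j hij x hx hb => ?_
  · rw [← ncard_sep]
    exact hB i
  · rw [← ncard_sep]
    exact hD i j hij x hx hb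

end tuples

end Pool.Agent.Helper19.AAT
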