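import Pool.Agent.Helper19.AAT.Big

/-!
# AAT: bad residues of the last coefficient modulo a prime
-/

open Polynomial

namespace Pool.Agent.Helper19.AAT

open Pool.Agent.Helper84.AA

/-- `h` is separable modulo `l` and `l` does not divide the resultant. -/
def FineAt (q : ℕ) (h : ℤ[X]) (l : ℕ) : Prop :=
  (h.map (Int.castRingHom (ZMod l))).Separable ∧
    ¬ (l : ℤ) ∣ h.resultant (X ^ 2 - C (4 * (q : ℤ)))

/-- A polynomial which is not fine modulo `l` has a root in common with its derivative or with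
`X ^ 2 - 4 q` in the algebraic closure. -/
theorem exists_common {q : ℕ} {h : ℤ[X]} (hm : h.Monic) {l : ℕ} [Fact l.Prime]
    (hf : ¬ FineAt q h l) : ∃ ξ : AlgebraicClosure (ZMod l),
      aeval ξ h = 0 ∧ (aeval ξ (derivative h) = 0 ∨ ξ ^ 2 = 4 * (q : AlgebraicClosure (ZMod l))) := by
  set φ := Int.castRingHom (ZMod l) with hφ
  have hae : ∀ (ξ : AlgebraicClosure (ZMod l)) (p : ℤ[X]), aeval ξ (p.map φ) = aeval ξ p := by
    intro ξ p
    rw [aeval_def, eval₂_map, aeval_def]
    congr 1
  unfold FineAt at hf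
  rw [not_and_or, not_not] at hf
  rcases hf with hf | hf
  · have h1 : ¬ IsCoprime (h.map φ) (derivative (h.map φ)) := hf
    rw [isCoprime_iff_aeval_ne_zero_of_isAlgClosed (k := ZMod l) (AlgebraicClosure (ZMod l))] at h1
    push Not at h1
    obtain ⟨ξ, h2, h3⟩ := h1
    rw [hae] at h2
    rw [derivative_map, hae] at h3
    exact ⟨ξ, h2, Or.inl h3⟩
  · have hd : (X ^ 2 - C (4 * (q : ℤ)) : ℤ[X]).natDegree = 2 := natDegree_X_pow_sub_C
    have hmap : (X ^ 2 - C (4 * (q : ℤ)) : ℤ[X]).map φ = X ^ 2 - C (φ (4 * (q : ℤ))) := by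
      rw [Polynomial.map_sub, Polynomial.map_pow, map_X, map_C]
    have hdK : (X ^ 2 - C (φ (4 * (q : ℤ))) : (ZMod l)[X]).natDegree = 2 := natDegree_X_pow_sub_C
    have hres : (h.map φ).resultant ((X ^ 2 - C (4 * (q : ℤ)) : ℤ[X]).map φ) =
        φ (h.resultant (X ^ 2 - C (4 * (q : ℤ)))) := by
      have h3 := resultant_map_map h (X ^ 2 - C (4 * (q : ℤ))) h.natDegree
        (X ^ 2 - C (4 * (q : ℤ)) : ℤ[X]).natDegree φ
      rw [hd] at h3
      rw [hm.natDegree_map, hmap, hdK, ← hmap, h3, hd]
    have h0 : φ (h.resultant (X ^ 2 - C (4 * (q : ℤ)))) = 0 := by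
      rw [hφ, eq_intCast]
      exact (ZMod.intCast_zmod_eq_zero_iff_dvd _ l).2 hf
    have h1 : ¬ IsCoprime (h.map φ) ((X ^ 2 - C (4 * (q : ℤ)) : ℤ[X]).map φ) := by
      rw [← isUnit_resultant_iff_isCoprime (hm.map φ), hres, h0]
      exact not_isUnit_zero
    rw [isCoprime_iff_aeval_ne_zero_of_isAlgClosed (k := ZMod l) (AlgebraicClosure (ZMod l))] at h1
    push Not at h1
    obtain ⟨ξ, h2, h3⟩ := h1
    rw [hae] at h2 h3
    refine ⟨ξ, h2, Or.inr ?_⟩
    rw [map_sub, map_pow, aeval_X, aeval_C] at h3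
    rw [sub_eq_zero.1 h3]
    simp

theorem resid {q g : ℕ} (hg : 1 ≤ g) {u : ℤ[X]} (hu : u.Monic) (hd : u.natDegree = g - 1) {l : ℕ}
    (hl : l.Prime) (hlg : g < l) (a : ℤ) (M : ℕ) [DecidablePred fun t : ℤ => ¬ FineAt q (X * u + C t) l] :
    (((Finset.Ico a (a + M)).filter fun t => ¬ FineAt q (X * u + C t) l).card : ℝ) ≤
      ((g : ℝ) + 1) * ((M : ℝ) / l + 1) := by
  classical
  have : Fact l.Prime := ⟨hl⟩
  set KK := AlgebraicClosure (ZMod l) with hKK
  set H : KK[X] := (X * u).map (Int.castRingHom KK) with hH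
  have hXu : (X * u).Monic := monic_X.mul hu
  have hXud : (X * u).natDegree = g := by
    rw [natDegree_X_mul hu.ne_zero, hd]; omega
  have hHm : H.Monic := hXu.map _
  have hHd : H.natDegree = g := by rw [hH, hXu.natDegree_map, hXud]
  have hchar : CharP KK l :=
    charP_of_injective_algebraMap (algebraMap (ZMod l) KK).injective l
  have hgKK : (g : KK) ≠ 0 := by
    intro h0
    have h1 := (CharP.cast_eq_zero_iff KK l g).1 h0
    have := Nat.le_of_dvd (by omega) h1
    omega
  have hder : derivative H ≠ 0 := by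
    intro h0
    have h1 : (derivative H).coeff (g - 1) = g := by
      rw [coeff_derivative, Nat.sub_add_cancel hg]
      have h5 : H.coeff g = 1 := by rw [← hHd]; exact hHm.coeff_natDegree
      rw [h5, Nat.cast_sub hg]
      ring
    rw [h0, coeff_zero] at h1
    exact hgKK h1.symm
  set T : Finset KK := ((derivative H).roots.toFinset ∪
    (X ^ 2 - C (4 * (q : KK)) : KK[X]).roots.toFinset).image (fun ξ => - H.eval ξ) with hT
  have hTcard : T.card ≤ g + 1 := by
    have h1 : (derivative H).roots.toFinset.card ≤ g - 1 := by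
      refine (Multiset.toFinset_card_le _).trans ((card_roots' _).trans ?_)
      have := natDegree_derivative_le H
      omega
    have h2 : (X ^ 2 - C (4 * (q : KK)) : KK[X]).roots.toFinset.card ≤ 2 := by
      refine (Multiset.toFinset_card_le _).trans ((card_roots' _).trans ?_)
      exact (natDegree_X_pow_sub_C).le
    have h3 : T.card ≤ _ := Finset.card_image_le
    have h4 := Finset.card_union_le (derivative H).roots.toFinset
      (X ^ 2 - C (4 * (q : KK)) : KK[X]).roots.toFinset
    omega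
  have hmem : ∀ t : ℤ, ¬ FineAt q (X * u + C t) l → (t : KK) ∈ T := by
    intro t ht
    have hmt : (X * u + C t).Monic := by
      apply hXu.add_of_left
      refine lt_of_le_of_lt degree_C_le ?_
      rw [Polynomial.degree_eq_natDegree hXu.ne_zero, hXud]
      exact_mod_cast (by omega : 0 < g)
    obtain ⟨ξ, h1, h2⟩ := exists_common hmt ht
    have hev : ∀ p : ℤ[X], aeval ξ p = (p.map (Int.castRingHom KK)).eval ξ := by
      intro p
      rw [eval_map, aeval_def]
      congr 1
    have h3 : (t : KK) = - H.eval ξ := by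
      rw [hev, Polynomial.map_add, map_C, eval_add, eval_C] at h1
      have h4 : (Int.castRingHom KK) t = (t : KK) := rfl
      rw [h4] at h1
      exact eq_neg_of_add_eq_zero_right h1
    rw [hT, Finset.mem_image]
    refine ⟨ξ, ?_, h3.symm⟩
    rw [Finset.mem_union, Multiset.mem_toFinset, Multiset.mem_toFinset]
    rcases h2 with h2 | h2
    · left
      rw [mem_roots hder, IsRoot.def]
      rw [derivative_add, derivative_C, add_zero, hev, ← derivative_map] at h2
      exact h2
    · right
      rw [mem_roots (X_pow_sub_C_ne_zero (by norm_num) _), IsRoot.def, eval_sub, eval_pow, eval_X,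
        eval_C, h2, sub_self]
  -- counting
  have hfib : ∀ τ ∈ T, (((Finset.Ico a (a + (M : ℤ))).filter fun t : ℤ => (t : KK) = τ).card : ℝ) ≤
      (M : ℝ) / l + 1 := by
    intro τ _
    rcases ((Finset.Ico a (a + (M : ℤ))).filter fun t : ℤ => (t : KK) = τ).eq_empty_or_nonempty with
      h0 | ⟨t₀, ht₀⟩
    · rw [h0, Finset.card_empty, Nat.cast_zero]
      positivity
    · have h1 := (count_div a M l hl.pos t₀).2
      refine le_trans ?_ h1
      have h2 : ((Finset.Ico a (a + (M : ℤ))).filter fun t : ℤ => (t : KK) = τ) ⊆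
          (Finset.Ico a (a + (M : ℤ))).filter fun t => (l : ℤ) ∣ t - t₀ := by
        intro t ht
        rw [Finset.mem_filter] at ht ht₀ ⊢
        refine ⟨ht.1, ?_⟩
        have h3 : ((t - t₀ : ℤ) : KK) = 0 := by
          rw [Int.cast_sub, ht.2, ht₀.2, sub_self]
        exact (CharP.intCast_eq_zero_iff KK l _).1 h3
      exact_mod_cast Finset.card_le_card h2
  calc (((Finset.Ico a (a + (M : ℤ))).filter fun t => ¬ FineAt q (X * u + C t) l).card : ℝ)
      ≤ ∑ τ ∈ T, (((Finset.Ico a (a + (M : ℤ))).filter fun t : ℤ => (t : KK) = τ).card : ℝ) := by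
        have h1 : ((Finset.Ico a (a + (M : ℤ))).filter fun t => ¬ FineAt q (X * u + C t) l) ⊆
            T.biUnion fun τ => (Finset.Ico a (a + (M : ℤ))).filter fun t : ℤ => (t : KK) = τ := by
          intro t ht
          rw [Finset.mem_filter] at ht
          rw [Finset.mem_biUnion]
          exact ⟨(t : KK), hmem t ht.2, by
            rw [Finset.mem_filter]
            exact ⟨ht.1, rfl⟩⟩
        exact_mod_cast (Finset.card_le_card h1).trans Finset.card_biUnion_le
    _ ≤ ∑ _τ ∈ T, ((M : ℝ) / l + 1) := Finset.sum_le_sum hfib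
    _ = T.card * ((M : ℝ) / l + 1) := by rw [Finset.sum_const, nsmul_eq_mul]
    _ ≤ ((g : ℝ) + 1) * ((M : ℝ) / l + 1) := by
        refine mul_le_mul_of_nonneg_right ?_ (by positivity)
        exact_mod_cast hTcard

end Pool.Agent.Helper19.AAT
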